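import Mathlib

/-!
# BV functions, perimeters and quasiminimal sets in metric measure spaces: definitions
-/

open MeasureTheory Filter Set Metric
open scoped ENNReal Topology NNReal

namespace Pool.Agent.J6H97.BVQ

variable {X : Type*} [MetricSpace X] [MeasurableSpace X]

/-- The Lipschitz constant of `f` on the set `s`, in `[0, ∞]`: the infimum of all `K` with
`|f x - f y| ≤ K d(x, y)` for all `x, y ∈ s`. -/
noncomputable def lipOn (f : X → ℝ) (s : Set X) : ℝ≥0∞ :=
  ⨅ (K : ℝ≥0∞) (_ : ∀ x ∈ s, ∀ y ∈ s, edist (f x) (f y) ≤ K * edist x y), K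

/-- The asymptotic Lipschitz constant `lip_a f (x) = inf_{r > 0} Lip(f | B_r(x))`. -/
noncomputable def lipa (f : X → ℝ) (x : X) : ℝ≥0∞ :=
  ⨅ (r : ℝ) (_ : 0 < r), lipOn f (ball x r)

/-- The total variation `|Df|(A)` of `f` in the open set `A` for the measure `μ`: the infimum of
`liminf_n ∫_A lip_a g_n dμ` over all sequences `g_n` of functions that are locally Lipschitz on `A`
and converge to `f` in `L^1` on every compact subset of `A`. -/
noncomputable def tvOpen (μ : Measure X) (f : X → ℝ) (A : Set X) : ℝ≥0∞ :=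
  ⨅ (g : ℕ → X → ℝ) (_ : ∀ n, LocallyLipschitzOn A (g n))
    (_ : ∀ C ⊆ A, IsCompact C → Tendsto (fun n => ∫⁻ x in C, ‖g n x - f x‖ₑ ∂μ) atTop (𝓝 0)),
    liminf (fun n => ∫⁻ x in A, lipa (g n) x ∂μ) atTop

/-- The total variation `|Df|(B)` of `f` on a set `B`: the infimum of `|Df|(A)` over the open sets
`A` containing `B`. -/
noncomputable def tv (μ : Measure X) (f : X → ℝ) (B : Set X) : ℝ≥0∞ :=
  ⨅ (A : Set X) (_ : IsOpen A) (_ : B ⊆ A), tvOpen μ f A

/-- `E` is a BV-extension set: there is `C` such that every `f ∈ BV(E)` has some `F ∈ BV(X)` with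
`F = f` almost everywhere on `E` and `‖F‖_{BV(X)} ≤ C ‖f‖_{BV(E)}`. Here `BV(E)` and its norm are
computed in the metric measure space `(X, d, μ|_E)`. -/
def IsBVExtensionSet (μ : Measure X) (E : Set X) : Prop :=
  ∃ C : ℝ≥0, ∀ f : X → ℝ, Integrable f (μ.restrict E) → tv (μ.restrict E) f E < ∞ →
    ∃ F : X → ℝ, Integrable F μ ∧ F =ᵐ[μ.restrict E] f ∧
      ∫⁻ x, ‖F x‖ₑ ∂μ + tv μ F univ ≤
        C * (∫⁻ x, ‖f x‖ₑ ∂(μ.restrict E) + tv (μ.restrict E) f E)

/-- The perimeter of `E` in `U`: the total variation of the indicator function of `E` in `U`. -/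
noncomputable def Per (μ : Measure X) (E U : Set X) : ℝ≥0∞ :=
  tv μ (E.indicator fun _ => (1 : ℝ)) U

/-- `S ⋐ W`: the closure of `S` is compact and contained in `W`. -/
def CompactlyIn (S W : Set X) : Prop := IsCompact (closure S) ∧ closure S ⊆ W

/-- `E` is `K`-quasiminimal in the open set `W`: `Per(E, U) ≤ K Per((E ∪ F) \ G, U)` for all open
`U ⋐ W` and Borel `F, G ⋐ U`. -/
def IsQuasiminimal (μ : Measure X) (K : ℝ≥0) (E W : Set X) : Prop :=
  ∀ U : Set X, IsOpen U → CompactlyIn U W → ∀ F G : Set X, MeasurableSet F → MeasurableSet G →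
    CompactlyIn F U → CompactlyIn G U → Per μ E U ≤ K * Per μ ((E ∪ F) \ G) U

/-- `E` is locally `K`-quasiminimal in the whole space: every point has an open neighbourhood in
which `E` is `K`-quasiminimal. -/
def IsLocallyQuasiminimal (μ : Measure X) (K : ℝ≥0) (E : Set X) : Prop :=
  ∀ x : X, ∃ V : Set X, IsOpen V ∧ x ∈ V ∧ IsQuasiminimal μ K E V

/-- `E` has locally finite perimeter: every point has an open neighbourhood in which the perimeter
of `E` is finite. -/
def HasLocallyFinitePerimeter (μ : Measure X) (E : Set X) : Prop :=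
  ∀ x : X, ∃ V : Set X, IsOpen V ∧ x ∈ V ∧ Per μ E V < ∞

/-- `g` is an upper gradient of `f`: `|f(γ(L)) - f(γ(0))| ≤ ∫_0^L g(γ(s)) ds` for every `L ≥ 0` and
every 1-Lipschitz curve `γ`. (Every rectifiable curve has a unit speed, in particular 1-Lipschitz,
parametrization, so this is the usual notion.) -/
def IsUpperGradient (g : X → ℝ≥0∞) (f : X → ℝ) : Prop :=
  ∀ (L : ℝ) (γ : ℝ → X), 0 ≤ L → LipschitzWith 1 γ →
    ‖f (γ L) - f (γ 0)‖ₑ ≤ ∫⁻ s in Icc 0 L, g (γ s)

/-- `(X, d, μ)` is a PI space (`X` complete is a separate assumption): `μ` is a doubling measure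
with balls of positive and finite measure and satisfies a local (1,1)-Poincare inequality for all
locally integrable functions and their Borel upper gradients. -/
structure IsPI (μ : Measure X) : Prop where
  pos : ∀ (x : X) (r : ℝ), 0 < r → 0 < μ (ball x r)
  finite : ∀ (x : X) (r : ℝ), μ (ball x r) < ∞
  doubling : ∃ C : ℝ≥0, ∀ (x : X) (r : ℝ), 0 < r → μ (ball x (2 * r)) ≤ C * μ (ball x r)
  poincare : ∃ (C : ℝ≥0) (l : ℝ), 1 ≤ l ∧ ∀ (f : X → ℝ) (g : X → ℝ≥0∞),
    LocallyIntegrable f μ → Measurable g → IsUpperGradient g f → ∀ (x : X) (r : ℝ), 0 < r →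
      ∫⁻ y in ball x r, ‖f y - ⨍ z in ball x r, f z ∂μ‖ₑ ∂μ ≤
        C * ENNReal.ofReal r * ∫⁻ y in ball x (l * r), g y ∂μ

end Pool.Agent.J6H97.BVQ
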