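import Pool.Agent.J6H97.BVQ.Doubling

/-!
# Lower density of a quasiminimal set at the points of its closure
-/

open MeasureTheory Filter Set Metric
open scoped ENNReal Topology NNReal

namespace Pool.Agent.J6H97.BVQ

variable {X : Type*} [MetricSpace X] [MeasurableSpace X]

lemma one_le_doubling {μ : Measure X} (hpos : ∀ (x : X) (r : ℝ), 0 < r → 0 < μ (ball x r))
    (hfin : ∀ (x : X) (r : ℝ), μ (ball x r) < ∞) {C : ℝ≥0}
    (hd : ∀ (x : X) (r : ℝ), 0 < r → μ (ball x (2 * r)) ≤ C * μ (ball x r)) (x0 : X) :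
    (1 : ℝ≥0∞) ≤ C := by
  have h1 : μ (ball x0 1) ≤ C * μ (ball x0 1) :=
    (measure_mono (ball_subset_ball (by norm_num))).trans (hd x0 1 one_pos)
  by_contra hlt
  push Not at hlt
  have h2 : C * μ (ball x0 1) < 1 * μ (ball x0 1) :=
    ENNReal.mul_lt_mul_left (hpos x0 1 one_pos).ne' (hfin x0 1).ne hlt
  rw [one_mul] at h2
  exact absurd h1 (not_le.2 h2)

/-- Stopping scale. -/
lemma exists_stopping {μ : Measure X} (hpos : ∀ (x : X) (r : ℝ), 0 < r → 0 < μ (ball x r))
    (hfin : ∀ (x : X) (r : ℝ), μ (ball x r) < ∞) {C : ℝ≥0}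
    (hd : ∀ (x : X) (r : ℝ), 0 < r → μ (ball x (2 * r)) ≤ C * μ (ball x r))
    {Ω : Set X} (hΩ : IsOpen Ω) {y : X} (hy : y ∈ Ω) {σ : ℝ} (hσ : 0 < σ)
    (h0 : 2 * μ (Ω ∩ ball y σ) ≤ μ (ball y σ)) :
    ∃ R, 0 < R ∧ R ≤ σ ∧ 2 * μ (Ω ∩ ball y R) ≤ μ (ball y R) ∧
      μ (ball y R) ≤ 2 * C * μ (Ω ∩ ball y R) := by
  classical
  have hex : ∃ k : ℕ, μ (ball y (σ / 2 ^ k)) < 2 * μ (Ω ∩ ball y (σ / 2 ^ k)) := by
    obtain ⟨δ, hδ, hδΩ⟩ := Metric.isOpen_iff.1 hΩ y hy
    obtain ⟨k, hk⟩ := pow_unbounded_of_one_lt (σ / δ) (show (1 : ℝ) < 2 by norm_num)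
    refine ⟨k, ?_⟩
    have h1 : σ / 2 ^ k < δ := by
      rw [div_lt_iff₀ (by positivity)]
      rw [div_lt_iff₀ hδ] at hk
      linarith
    have h2 : Ω ∩ ball y (σ / 2 ^ k) = ball y (σ / 2 ^ k) :=
      inter_eq_right.2 ((ball_subset_ball h1.le).trans hδΩ)
    rw [h2, two_mul]
    exact ENNReal.lt_add_right (hfin _ _).ne (hpos _ _ (by positivity)).ne'
  set k := Nat.find hex with hk
  have hk1 := Nat.find_spec hex
  have hk0 : k ≠ 0 := by
    intro h
    rw [← hk, h, pow_zero, div_one] at hk1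
    exact absurd h0 (not_le.2 hk1)
  obtain ⟨j, hj⟩ := Nat.exists_eq_succ_of_ne_zero hk0
  have hjk : ¬ μ (ball y (σ / 2 ^ j)) < 2 * μ (Ω ∩ ball y (σ / 2 ^ j)) :=
    Nat.find_min hex (by rw [← hk, hj]; exact Nat.lt_succ_self j)
  rw [← hk, hj] at hk1
  have e : σ / 2 ^ j = 2 * (σ / 2 ^ (j + 1)) := by rw [pow_succ]; field_simp
  refine ⟨σ / 2 ^ j, by positivity, div_le_self hσ.le (one_le_pow₀ (by norm_num)), not_lt.1 hjk, ?_⟩
  calc μ (ball y (σ / 2 ^ j)) = μ (ball y (2 * (σ / 2 ^ (j + 1)))) := by rw [← e]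
    _ ≤ C * μ (ball y (σ / 2 ^ (j + 1))) := hd _ _ (by positivity)
    _ ≤ C * (2 * μ (Ω ∩ ball y (σ / 2 ^ (j + 1)))) := by gcongr
    _ = 2 * C * μ (Ω ∩ ball y (σ / 2 ^ (j + 1))) := by ring
    _ ≤ _ := by
        refine mul_le_mul' le_rfl (measure_mono (inter_subset_inter_right _ (ball_subset_ball ?_)))
        have : 0 < σ / 2 ^ (j + 1) := by positivity
        rw [e]
        linarith

variable [BorelSpace X]

omit [MetricSpace X] [BorelSpace X] in
lemma osc_lower {μ : Measure X} {Ω B : Set X} (hΩ : MeasurableSet Ω) (hB : MeasurableSet B) (a : ℝ)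
    {M c : ℝ≥0∞} (h1 : M ≤ c * μ (Ω ∩ B)) (h2 : M ≤ c * μ (B \ Ω)) :
    M ≤ c * ∫⁻ x in B, ‖chi Ω x - a‖ₑ ∂μ := by
  rw [← lintegral_inter_add_sdiff _ B hΩ]
  have e1 : ∫⁻ x in B ∩ Ω, ‖chi Ω x - a‖ₑ ∂μ = ‖1 - a‖ₑ * μ (Ω ∩ B) := by
    rw [setLIntegral_congr_fun (g := fun _ => ‖1 - a‖ₑ) (hB.inter hΩ), setLIntegral_const, inter_comm]
    intro x hx
    simp [chi, hx.2]
  have e2 : ∫⁻ x in B \ Ω, ‖chi Ω x - a‖ₑ ∂μ = ‖a‖ₑ * μ (B \ Ω) := by
    rw [setLIntegral_congr_fun (g := fun _ => ‖a‖ₑ) (hB.diff hΩ), setLIntegral_const]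
    intro x hx
    simp [chi, hx.2]
  rw [e1, e2]
  have h3 : (1 : ℝ≥0∞) ≤ ‖1 - a‖ₑ + ‖a‖ₑ := by
    have := enorm_add_le (1 - a) a
    simpa using this
  calc M = 1 * M := (one_mul M).symm
    _ ≤ (‖1 - a‖ₑ + ‖a‖ₑ) * M := by gcongr
    _ = ‖1 - a‖ₑ * M + ‖a‖ₑ * M := by ring
    _ ≤ ‖1 - a‖ₑ * (c * μ (Ω ∩ B)) + ‖a‖ₑ * (c * μ (B \ Ω)) := by gcongr
    _ = _ := by ring

/-- One step of the iteration for the lower density. -/
theorem density_step [ProperSpace X] {μ : Measure X}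
    (hpos : ∀ (x : X) (r : ℝ), 0 < r → 0 < μ (ball x r))
    (hfin : ∀ (x : X) (r : ℝ), μ (ball x r) < ∞) {C : ℝ≥0}
    (hd : ∀ (x : X) (r : ℝ), 0 < r → μ (ball x (2 * r)) ≤ C * μ (ball x r))
    {CP : ℝ≥0} {l : ℝ} (hl : 1 ≤ l)
    (hP : ∀ (f : X → ℝ) (g : X → ℝ≥0∞),
      LocallyIntegrable f μ → Measurable g → IsUpperGradient g f → ∀ (x : X) (r : ℝ), 0 < r →
      ∫⁻ y in ball x r, ‖f y - ⨍ z in ball x r, f z ∂μ‖ₑ ∂μ ≤
        CP * ENNReal.ofReal r * ∫⁻ y in ball x (l * r), g y ∂μ)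
    {Ω : Set X} (hΩ : IsOpen Ω) {x0 : X} {ρ σ : ℝ} (hσ : 0 < σ)
    (hsmall : ∀ y ∈ closedBall x0 ρ, 2 * μ (Ω ∩ ball y σ) ≤ μ (ball y σ))
    {u : X → ℝ} (hu : ∀ x ∈ closedBall x0 (ρ + σ), u x = chi Ω x) (hT : tvOpen μ u univ < ∞)
    {m : ℕ} (hm : 4 * l ≤ 2 ^ m) :
    μ (Ω ∩ closedBall x0 ρ) ≤
      C ^ m * (2 * C * (CP * ENNReal.ofReal σ * tvOpen μ u univ)) := by
  classical
  have : IsFiniteMeasureOnCompacts μ := isFiniteMeasureOnCompacts_of_finite hfin
  have : IsLocallyFiniteMeasure μ := ⟨fun x => ⟨ball x 1, ball_mem_nhds x one_pos, hfin x 1⟩⟩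
  have hC1 : (1 : ℝ≥0∞) ≤ C := one_le_doubling hpos hfin hd x0
  set S := Ω ∩ closedBall x0 ρ with hS
  have hstop : ∀ y ∈ S, ∃ R, 0 < R ∧ R ≤ σ ∧ 2 * μ (Ω ∩ ball y R) ≤ μ (ball y R) ∧
      μ (ball y R) ≤ 2 * C * μ (Ω ∩ ball y R) := fun y hy =>
    exists_stopping hpos hfin hd hΩ hy.1 hσ (hsmall y hy.2)
  choose! R hR0 hRσ hR1 hR2 using hstop
  have hl0 : 0 < l := by linarith
  obtain ⟨v, hvS, hvd, hvc⟩ := Vitali.exists_disjoint_subfamily_covering_enlargement_ball
    S (fun x => x) (fun y => l * R y) (l * σ)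
    (fun y hy => mul_le_mul_of_nonneg_left (hRσ y hy) hl0.le) 4 (by norm_num)
  have hvcount : v.Countable := hvd.countable_of_isOpen (fun _ _ => isOpen_ball)
    fun y hy => ⟨y, mem_ball_self (mul_pos hl0 (hR0 y (hvS hy)))⟩
  have hB : ∀ y ∈ v, ball y (R y) ⊆ ball y (l * R y) := fun y hy =>
    ball_subset_ball (by nlinarith [hR0 y (hvS hy)])
  have hdisjB : ∀ F : Finset v, (F : Set v).PairwiseDisjoint fun b : v => ball (b : X) (R b) := by
    intro F a _ b _ hab
    exact (hvd a.2 b.2 fun h => hab (Subtype.ext h)).mono (hB a a.2) (hB b b.2)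
  have hdisjlB : ∀ F : Finset v,
      (F : Set v).PairwiseDisjoint fun b : v => ball (b : X) (l * R b) := by
    intro F a _ b _ hab
    exact hvd a.2 b.2 fun h => hab (Subtype.ext h)
  have hBsub : ∀ b ∈ v, ball b (R b) ⊆ closedBall x0 (ρ + σ) := by
    intro b hb x hx
    have h1 := (hvS hb).2
    have h2 := hRσ b (hvS hb)
    rw [mem_ball] at hx
    rw [mem_closedBall] at *
    linarith [dist_triangle x b x0]
  -- the estimate of the total measure of the selected balls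
  have hsum : ∀ c, tvOpen μ u univ < c → ∀ F : Finset v,
      ∑ b ∈ F, μ (ball (b : X) (R b)) ≤ 2 * C * (CP * ENNReal.ofReal σ * c) := by
    intro c hc F
    obtain ⟨w, hw, hwc, hwl⟩ := exists_seq hc
    have hwL : ∀ n, LocallyLipschitz (w n) := fun n => locallyLipschitzOn_univ.1 (hw n)
    have hest : ∀ n, ∑ b ∈ F, μ (ball (b : X) (R b)) ≤
        2 * C * (∫⁻ x in closedBall x0 (ρ + σ), ‖w n x - u x‖ₑ ∂μ + CP * ENNReal.ofReal σ * c) := by
      intro n
      have hint : LocallyIntegrable (w n) μ := (hwL n).continuous.locallyIntegrable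
      have hball : ∀ b : v, μ (ball (b : X) (R b)) ≤
          2 * C * (∫⁻ x in ball (b : X) (R b), ‖w n x - u x‖ₑ ∂μ +
            CP * ENNReal.ofReal σ * ∫⁻ x in ball (b : X) (l * R b), lipa (w n) x ∂μ) := by
        intro b
        have hbS := hvS b.2
        set B := ball (b : X) (R b) with hBdef
        set a := ⨍ z in B, w n z ∂μ with ha
        have hBm : MeasurableSet B := measurableSet_ball
        have h1 := hR1 b hbS
        have h2 := hR2 b hbS
        have h3 : μ B ≤ 2 * C * μ (B \ Ω) := by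
          have hadd : μ (Ω ∩ B) + μ (B \ Ω) = μ B := by
            rw [inter_comm]; exact measure_inter_add_sdiff B hΩ.measurableSet
          have hne : μ (Ω ∩ B) ≠ ∞ := ((measure_mono inter_subset_right).trans_lt (hfin _ _)).ne
          have h4 : μ (Ω ∩ B) ≤ μ (B \ Ω) := by
            rw [two_mul, ← hadd] at h1
            exact (ENNReal.add_le_add_iff_left hne).1 h1
          calc μ B = μ (Ω ∩ B) + μ (B \ Ω) := hadd.symm
            _ ≤ μ (B \ Ω) + μ (B \ Ω) := by gcongr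
            _ = 2 * 1 * μ (B \ Ω) := by ring
            _ ≤ 2 * C * μ (B \ Ω) := by gcongr
        have h5 := osc_lower hΩ.measurableSet hBm a h2 h3
        refine h5.trans ?_
        gcongr
        have h6 : ∫⁻ x in B, ‖chi Ω x - a‖ₑ ∂μ ≤
            ∫⁻ x in B, (‖w n x - u x‖ₑ + ‖w n x - a‖ₑ) ∂μ := by
          refine setLIntegral_mono' hBm fun x hx => ?_
          rw [← hu x (hBsub b b.2 hx)]
          have : u x - a = -(w n x - u x) + (w n x - a) := by ring
          rw [this]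
          refine (enorm_add_le _ _).trans ?_
          rw [enorm_neg]
        refine h6.trans ?_
        have hm2 : Measurable fun x => ‖w n x - a‖ₑ :=
          ((hwL n).continuous.measurable.sub_const a).enorm
        rw [lintegral_add_right _ hm2]
        gcongr
        refine (hP (w n) (lipa (w n)) hint (measurable_lipa _) (isUpperGradient_lipa (hwL n)) b
          (R b) (hR0 b hbS)).trans ?_
        gcongr
        exact hRσ b hbS
      calc ∑ b ∈ F, μ (ball (b : X) (R b))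
          ≤ ∑ b ∈ F, 2 * C * (∫⁻ x in ball (b : X) (R b), ‖w n x - u x‖ₑ ∂μ +
            CP * ENNReal.ofReal σ * ∫⁻ x in ball (b : X) (l * R b), lipa (w n) x ∂μ) :=
            Finset.sum_le_sum fun b _ => hball b
        _ = 2 * C * (∑ b ∈ F, ∫⁻ x in ball (b : X) (R b), ‖w n x - u x‖ₑ ∂μ +
            CP * ENNReal.ofReal σ * ∑ b ∈ F, ∫⁻ x in ball (b : X) (l * R b), lipa (w n) x ∂μ) := by
            rw [← Finset.mul_sum, Finset.sum_add_distrib, ← Finset.mul_sum]
        _ ≤ _ := by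
            rw [← lintegral_biUnion_finset (hdisjB F) (fun _ _ => measurableSet_ball),
              ← lintegral_biUnion_finset (hdisjlB F) (fun _ _ => measurableSet_ball)]
            gcongr
            · exact iUnion₂_subset fun b _ => hBsub b b.2
            · refine (setLIntegral_le_lintegral _ _).trans ?_
              have := (hwl n).le
              rwa [Measure.restrict_univ] at this
    have hlim : Tendsto (fun n => 2 * C * (∫⁻ x in closedBall x0 (ρ + σ), ‖w n x - u x‖ₑ ∂μ +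
        CP * ENNReal.ofReal σ * c)) atTop (𝓝 (2 * C * (0 + CP * ENNReal.ofReal σ * c))) :=
      ENNReal.Tendsto.const_mul
        ((hwc _ (subset_univ _) (isCompact_closedBall _ _)).add_const _)
        (Or.inr (ENNReal.mul_ne_top (by simp) ENNReal.coe_ne_top))
    rw [zero_add] at hlim
    exact ge_of_tendsto' hlim hest
  -- the covering
  have hcov : μ S ≤ C ^ m * ∑' b : v, μ (ball (b : X) (R b)) := by
    have h1 : S ⊆ ⋃ b ∈ v, ball b (4 * (l * R b)) := by
      intro x hx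
      obtain ⟨b, hb, hb2⟩ := hvc x hx
      exact mem_biUnion hb (hb2 (mem_ball_self (mul_pos hl0 (hR0 x hx))))
    calc μ S ≤ μ (⋃ b ∈ v, ball b (4 * (l * R b))) := measure_mono h1
      _ ≤ ∑' b : v, μ (ball (b : X) (4 * (l * R b))) := measure_biUnion_le μ hvcount _
      _ ≤ ∑' b : v, C ^ m * μ (ball (b : X) (R b)) := by
          refine ENNReal.tsum_le_tsum fun b => ?_
          have hR := hR0 b (hvS b.2)
          refine (measure_mono (ball_subset_ball ?_)).trans (doubling_iter hd m b hR)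
          nlinarith
      _ = _ := ENNReal.tsum_mul_left
  have hc : ∀ c, tvOpen μ u univ < c → μ S ≤ C ^ m * (2 * C * (CP * ENNReal.ofReal σ * c)) := by
    intro c hc
    refine hcov.trans ?_
    gcongr
    rw [ENNReal.tsum_eq_iSup_sum]
    exact iSup_le fun F => hsum c hc F
  -- conclusion
  have hlim2 : Tendsto (fun n : ℕ => (C : ℝ≥0∞) ^ m * (2 * C * (CP * ENNReal.ofReal σ *
      (tvOpen μ u univ + ENNReal.ofReal (1 / ((n : ℝ) + 1)))))) atTop
      (𝓝 (C ^ m * (2 * C * (CP * ENNReal.ofReal σ * (tvOpen μ u univ + 0))))) := by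
    have h1 : Tendsto (fun n : ℕ => ENNReal.ofReal (1 / ((n : ℝ) + 1))) atTop (𝓝 0) := by
      have := ENNReal.tendsto_ofReal (tendsto_one_div_add_atTop_nhds_zero_nat (𝕜 := ℝ))
      simpa using this
    refine ENNReal.Tendsto.const_mul (ENNReal.Tendsto.const_mul (ENNReal.Tendsto.const_mul
      (h1.const_add _) (Or.inr ?_)) (Or.inr ?_)) (Or.inr ?_)
    · exact ENNReal.mul_ne_top ENNReal.coe_ne_top ENNReal.ofReal_ne_top
    · exact ENNReal.mul_ne_top (by simp) ENNReal.coe_ne_top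
    · exact ENNReal.pow_ne_top ENNReal.coe_ne_top
  rw [add_zero] at hlim2
  refine ge_of_tendsto' hlim2 fun n => hc _ ?_
  refine ENNReal.lt_add_right hT.ne ?_
  have : (0 : ℝ) < 1 / ((n : ℝ) + 1) := by positivity
  exact (ENNReal.ofReal_pos.2 this).ne'

omit [MeasurableSpace X] [BorelSpace X] in
/-- The cutoff function used for the density estimate: `1` on `closedBall x0 a`, `0` off
`ball x0 s`. -/
lemma ramp_dist {a s : ℝ} (h : a < s) (x0 : X) :
    LocallyLipschitz (fun x : X => ramp a s (dist x x0)) := by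
  have h1 : LipschitzWith 1 fun x : X => dist x x0 := LipschitzWith.dist_left x0
  exact ((ramp_lipschitz h).comp h1).locallyLipschitz

/-- Total variation of the product of the cutoff and `χ_Ω`. -/
theorem tv_ramp_le [ProperSpace X] {μ : Measure X} [IsFiniteMeasureOnCompacts μ] {K : ℝ≥0}
    {Ω V : Set X} (hΩ : MeasurableSet Ω) (hK : IsQuasiminimal μ K Ω V) {x0 : X} {a s : ℝ}
    (has : a < s) (hV : closedBall x0 s ⊆ V)
    (hfin : tvOpen μ (chi Ω) (ball x0 s) < ∞) :
    tvOpen μ (fun x => ramp a s (dist x x0) * chi Ω x) univ ≤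
      (2 * K + 2) * (ENNReal.ofReal (1 / (s - a)) * μ (Ω ∩ closedBall x0 s)) := by
  set g : X → ℝ := fun x => ramp a s (dist x x0) with hg
  have hgL : LocallyLipschitz g := ramp_dist has x0
  have hsupp : tsupport g ⊆ closedBall x0 s := by
    refine closure_minimal (fun x hx => ?_) isClosed_closedBall
    rw [mem_closedBall]
    by_contra hlt
    push Not at hlt
    exact hx (ramp_eq_zero has hlt.le)
  have hgs : HasCompactSupport g :=
    (isCompact_closedBall x0 s).of_isClosed_subset (isClosed_tsupport g) hsupp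
  have hpos : {x | 0 < g x} ⊆ ball x0 s := by
    intro x hx
    rw [mem_ball]
    by_contra hlt
    push Not at hlt
    have hx : 0 < g x := hx
    rw [hg] at hx
    simp only [ramp_eq_zero has hlt, lt_self_iff_false] at hx
  refine (tv_ext_le hΩ hK hgL hgs (hsupp.trans hV) (fun x => ramp_nonneg _ _ _)
    ((tvOpen_mono hpos).trans_lt hfin)).trans ?_
  gcongr
  have h1 : ∀ x, lipa g x ≤ (closedBall x0 s).indicator (fun _ => ENNReal.ofReal (1 / (s - a))) x := by
    intro x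
    by_cases hx : x ∈ closedBall x0 s
    · rw [indicator_of_mem hx]
      have h2 : LipschitzWith (Real.toNNReal (1 / (s - a)) * 1) g :=
        (ramp_lipschitz has).comp (LipschitzWith.dist_left x0)
      rw [mul_one] at h2
      exact lipa_le_of_lipschitzOnWith univ_mem (h2.lipschitzOnWith)
    · rw [indicator_of_notMem hx]
      refine (lipa_eq_zero (c := 0) ?_).le
      filter_upwards [isClosed_closedBall.isOpen_compl.mem_nhds hx] with y hy
      have : s < dist y x0 := by simpa using hy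
      exact ramp_eq_zero has this.le
  calc ∫⁻ x in Ω, lipa g x ∂μ
      ≤ ∫⁻ x in Ω, (closedBall x0 s).indicator (fun _ => ENNReal.ofReal (1 / (s - a))) x ∂μ :=
        lintegral_mono h1
    _ = ENNReal.ofReal (1 / (s - a)) * μ (Ω ∩ closedBall x0 s) := by
        rw [lintegral_indicator measurableSet_closedBall, setLIntegral_const,
          Measure.restrict_apply measurableSet_closedBall, inter_comm]

/-- Lower density: there is a constant such that a quasiminimal set which has small density in a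
ball centred at `x0` is null in the half ball. -/
theorem density_lower [ProperSpace X] {μ : Measure X}
    (hpos : ∀ (x : X) (r : ℝ), 0 < r → 0 < μ (ball x r))
    (hfin : ∀ (x : X) (r : ℝ), μ (ball x r) < ∞) {C : ℝ≥0}
    (hd : ∀ (x : X) (r : ℝ), 0 < r → μ (ball x (2 * r)) ≤ C * μ (ball x r)) (hC2 : 2 ≤ C)
    {CP : ℝ≥0} {l : ℝ} (hl : 1 ≤ l)
    (hP : ∀ (f : X → ℝ) (g : X → ℝ≥0∞),
      LocallyIntegrable f μ → Measurable g → IsUpperGradient g f → ∀ (x : X) (r : ℝ), 0 < r →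
      ∫⁻ y in ball x r, ‖f y - ⨍ z in ball x r, f z ∂μ‖ₑ ∂μ ≤
        CP * ENNReal.ofReal r * ∫⁻ y in ball x (l * r), g y ∂μ) (K : ℝ≥0) :
    ∃ D : ℝ≥0, ∀ (Ω V : Set X), IsOpen Ω → IsQuasiminimal μ K Ω V → ∀ (x0 : X) (r : ℝ), 0 < r →
      closedBall x0 r ⊆ V → tvOpen μ (chi Ω) (ball x0 r) < ∞ →
      D * μ (Ω ∩ closedBall x0 r) ≤ μ (ball x0 r) → μ (Ω ∩ closedBall x0 (r / 2)) = 0 := by
  have : IsFiniteMeasureOnCompacts μ := isFiniteMeasureOnCompacts_of_finite hfin
  obtain ⟨m, hm⟩ := pow_unbounded_of_one_lt (4 * l) (show (1 : ℝ) < 2 by norm_num)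
  -- the constant of one step
  set A : ℝ≥0 := C ^ m * (2 * C * (CP * (2 * K + 2))) with hA
  obtain ⟨m0, hm0⟩ := pow_unbounded_of_one_lt (C * A) (show (1 : ℝ≥0) < 2 by norm_num)
  refine ⟨2 * C ^ (4 + m0), fun Ω V hΩ hK x0 r hr hV hfinp hsmall => ?_⟩
  set ρ : ℕ → ℝ := fun k => r / 2 * (1 + 1 / 2 ^ k) with hρ
  set σ : ℕ → ℝ := fun k => r / 2 ^ (k + 3 + m0) with hσ
  have hσ0 : ∀ k, 0 < σ k := fun k => by positivity
  have hρr : ∀ k, ρ k ≤ r := by
    intro k
    have : (1 : ℝ) / 2 ^ k ≤ 1 := by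
      rw [div_le_one (by positivity)]; exact one_le_pow₀ (by norm_num)
    have : r / 2 * (1 + 1 / 2 ^ k) ≤ r / 2 * (1 + 1) := by gcongr
    simp only [hρ]; linarith
  have hρ0 : ∀ k, 0 < ρ k := fun k => by positivity
  have hρd : ∀ k, ρ k - ρ (k + 1) = r / 2 ^ (k + 2) := by
    intro k
    simp only [hρ]
    have : (2 : ℝ) ^ (k + 2) = 4 * 2 ^ k := by ring
    rw [this, pow_succ]
    field_simp
    ring
  have hσd : ∀ k, σ k ≤ (ρ k - ρ (k + 1)) / 2 := by
    intro k
    rw [hρd, hσ]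
    have h1 : r / 2 ^ (k + 2) / 2 = r / 2 ^ (k + 3) := by
      rw [show k + 3 = (k + 2) + 1 by ring, pow_succ (2 : ℝ) (k + 2)]; field_simp
    rw [h1]
    exact div_le_div_of_nonneg_left hr.le (by positivity)
      (pow_le_pow_right₀ (by norm_num) (by omega))
  have he_ne : ∀ s, μ (Ω ∩ closedBall x0 s) ≠ ∞ := fun s =>
    ((measure_mono inter_subset_right).trans_lt (isCompact_closedBall x0 s).measure_lt_top).ne
  have hC0 : (C : ℝ≥0∞) ≠ 0 := by
    have : (0 : ℝ≥0) < C := lt_of_lt_of_le (by norm_num) hC2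
    simpa using this.ne'
  have hstep : ∀ k, (C : ℝ≥0∞) ^ k * μ (Ω ∩ closedBall x0 (ρ k)) ≤ μ (Ω ∩ closedBall x0 r) →
      C * μ (Ω ∩ closedBall x0 (ρ (k + 1))) ≤ μ (Ω ∩ closedBall x0 (ρ k)) := by
    intro k hk
    set a := (ρ k + ρ (k + 1)) / 2 with ha
    have hρlt : ρ (k + 1) < ρ k := by
      have := hρd k
      have : 0 < r / 2 ^ (k + 2) := by positivity
      linarith
    have haρ : a < ρ k := by rw [ha]; linarith
    have hT := tv_ramp_le hΩ.measurableSet hK haρ
      ((closedBall_subset_closedBall (hρr k)).trans hV)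
      ((tvOpen_mono (ball_subset_ball (hρr k))).trans_lt hfinp)
    have hTfin : tvOpen μ (fun x => ramp a (ρ k) (dist x x0) * chi Ω x) univ < ∞ := by
      refine hT.trans_lt (ENNReal.mul_lt_top ?_ (ENNReal.mul_lt_top ENNReal.ofReal_lt_top
        (he_ne _).lt_top))
      exact ENNReal.add_lt_top.2 ⟨ENNReal.mul_lt_top (by simp) ENNReal.coe_lt_top, by simp⟩
    have hsm : ∀ y ∈ closedBall x0 (ρ (k + 1)), 2 * μ (Ω ∩ ball y (σ k)) ≤ μ (ball y (σ k)) := by
      intro y hy
      rw [mem_closedBall] at hy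
      have h1 : μ (Ω ∩ ball y (σ k)) ≤ μ (Ω ∩ closedBall x0 (ρ k)) := by
        refine measure_mono (inter_subset_inter_right _ fun z hz => ?_)
        rw [mem_ball] at hz
        rw [mem_closedBall]
        have := hσd k
        linarith [dist_triangle z y x0]
      have h2 : μ (ball x0 r) ≤ C ^ (k + 4 + m0) * μ (ball y (σ k)) := by
        refine (measure_mono ?_).trans (doubling_iter hd (k + 4 + m0) y (hσ0 k))
        refine ball_subset_ball' ?_
        have e : (2 : ℝ) ^ (k + 4 + m0) * σ k = 2 * r := by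
          simp only [hσ]
          rw [show k + 4 + m0 = (k + 3 + m0) + 1 by ring, pow_succ]
          field_simp
        rw [e, dist_comm]
        have := hρr (k + 1)
        linarith
      have h3 : (C : ℝ≥0∞) ^ (k + 4 + m0) * (2 * μ (Ω ∩ ball y (σ k))) ≤
          C ^ (k + 4 + m0) * μ (ball y (σ k)) := by
        calc (C : ℝ≥0∞) ^ (k + 4 + m0) * (2 * μ (Ω ∩ ball y (σ k)))
            ≤ C ^ (k + 4 + m0) * (2 * μ (Ω ∩ closedBall x0 (ρ k))) := by gcongr
          _ = 2 * C ^ (4 + m0) * (C ^ k * μ (Ω ∩ closedBall x0 (ρ k))) := by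
              rw [show k + 4 + m0 = k + (4 + m0) by ring, pow_add]; ring
          _ ≤ 2 * C ^ (4 + m0) * μ (Ω ∩ closedBall x0 r) := by gcongr
          _ ≤ μ (ball x0 r) := by
              have := hsmall
              push_cast at this
              exact this
          _ ≤ _ := h2
      exact (ENNReal.mul_le_mul_iff_right (pow_ne_zero _ hC0)
        (ENNReal.pow_ne_top ENNReal.coe_ne_top)).1 h3
    have hone := density_step hpos hfin hd hl hP hΩ (hσ0 k) hsm
      (u := fun x => ramp a (ρ k) (dist x x0) * chi Ω x) (fun x hx => ?_) hTfin hm.le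
    · have hle : μ (Ω ∩ closedBall x0 (ρ (k + 1))) ≤
          A * (ENNReal.ofReal (σ k) * ENNReal.ofReal (1 / (ρ k - a))) *
            μ (Ω ∩ closedBall x0 (ρ k)) := by
        refine hone.trans ?_
        calc (C : ℝ≥0∞) ^ m * (2 * C * (CP * ENNReal.ofReal (σ k) *
              tvOpen μ (fun x => ramp a (ρ k) (dist x x0) * chi Ω x) univ))
            ≤ C ^ m * (2 * C * (CP * ENNReal.ofReal (σ k) * ((2 * K + 2) *
              (ENNReal.ofReal (1 / (ρ k - a)) * μ (Ω ∩ closedBall x0 (ρ k)))))) := by gcongr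
          _ = _ := by rw [hA]; push_cast; ring
      have hratio : ENNReal.ofReal (σ k) * ENNReal.ofReal (1 / (ρ k - a)) =
          ENNReal.ofReal (1 / 2 ^ m0) := by
        rw [← ENNReal.ofReal_mul (hσ0 k).le]
        congr 1
        have e1 : ρ k - a = r / 2 ^ (k + 3) := by
          have : ρ k - a = (ρ k - ρ (k + 1)) / 2 := by rw [ha]; ring
          rw [this, hρd, show k + 3 = (k + 2) + 1 by ring, pow_succ (2 : ℝ) (k + 2)]
          field_simp
        rw [e1]
        simp only [hσ]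
        rw [pow_add]
        field_simp
      have hcoef : (C : ℝ≥0∞) * (A * (ENNReal.ofReal (σ k) * ENNReal.ofReal (1 / (ρ k - a)))) ≤ 1 := by
        rw [hratio]
        have h4 : ENNReal.ofReal (1 / 2 ^ m0) = ((1 / 2 ^ m0 : ℝ≥0) : ℝ≥0∞) := by
          rw [ENNReal.ofReal, ENNReal.coe_inj]
          apply NNReal.eq
          rw [Real.coe_toNNReal _ (by positivity)]
          push_cast
          rfl
        rw [h4, ← ENNReal.coe_mul, ← ENNReal.coe_mul, ← ENNReal.coe_one, ENNReal.coe_le_coe]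
        rw [← mul_assoc, mul_one_div, div_le_one (by positivity)]
        exact hm0.le
      calc C * μ (Ω ∩ closedBall x0 (ρ (k + 1)))
          ≤ C * (A * (ENNReal.ofReal (σ k) * ENNReal.ofReal (1 / (ρ k - a))) *
            μ (Ω ∩ closedBall x0 (ρ k))) := by gcongr
        _ = (C * (A * (ENNReal.ofReal (σ k) * ENNReal.ofReal (1 / (ρ k - a))))) *
            μ (Ω ∩ closedBall x0 (ρ k)) := by ring
        _ ≤ 1 * μ (Ω ∩ closedBall x0 (ρ k)) := by gcongr
        _ = _ := one_mul _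
    · have h5 : dist x x0 ≤ a := by
        rw [mem_closedBall] at hx
        have := hσd k
        rw [ha]
        linarith
      simp only [ramp_eq_one haρ h5, one_mul]
  have hall : ∀ k, (C : ℝ≥0∞) ^ k * μ (Ω ∩ closedBall x0 (ρ k)) ≤ μ (Ω ∩ closedBall x0 r) := by
    intro k
    induction k with
    | zero =>
      have : ρ 0 = r := by simp only [hρ]; norm_num
      rw [this, pow_zero, one_mul]
    | succ n ih =>
      calc (C : ℝ≥0∞) ^ (n + 1) * μ (Ω ∩ closedBall x0 (ρ (n + 1)))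
          = C ^ n * (C * μ (Ω ∩ closedBall x0 (ρ (n + 1)))) := by ring
        _ ≤ C ^ n * μ (Ω ∩ closedBall x0 (ρ n)) := by gcongr; exact hstep n ih
        _ ≤ _ := ih
  by_contra hne
  have hhalf : ∀ k, (2 : ℝ≥0∞) ^ k * μ (Ω ∩ closedBall x0 (r / 2)) ≤ μ (Ω ∩ closedBall x0 r) := by
    intro k
    refine le_trans ?_ (hall k)
    gcongr
    · have : ((2 : ℝ≥0) : ℝ≥0∞) ≤ C := ENNReal.coe_le_coe.2 hC2
      simpa using this
    · have : 0 < (1 : ℝ) / 2 ^ k := by positivity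
      simp only [hρ]
      nlinarith
  have hlim : Tendsto (fun k : ℕ => (2 : ℝ≥0∞) ^ k * μ (Ω ∩ closedBall x0 (r / 2))) atTop
      (𝓝 (∞ * μ (Ω ∩ closedBall x0 (r / 2)))) :=
    ENNReal.Tendsto.mul_const (ENNReal.tendsto_pow_atTop_nhds_top_iff.2 (by norm_num))
      (Or.inr (he_ne _))
  have h6 := le_of_tendsto' hlim hhalf
  rw [ENNReal.top_mul hne] at h6
  exact he_ne r (top_le_iff.1 h6)

end Pool.Agent.J6H97.BVQ
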