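import Pool.Agent.J6H97.BVQ.Ext

/-!
# Doubling measures
-/

open MeasureTheory Filter Set Metric
open scoped ENNReal Topology NNReal

namespace Pool.Agent.J6H97.BVQ

variable {X : Type*} [MetricSpace X] [MeasurableSpace X]

lemma doubling_iter {μ : Measure X} {C : ℝ≥0}
    (hd : ∀ (x : X) (r : ℝ), 0 < r → μ (ball x (2 * r)) ≤ C * μ (ball x r)) (k : ℕ) (x : X)
    {r : ℝ} (hr : 0 < r) : μ (ball x (2 ^ k * r)) ≤ C ^ k * μ (ball x r) := by
  induction k with
  | zero => simp
  | succ n ih =>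
    have e : (2 : ℝ) ^ (n + 1) * r = 2 * (2 ^ n * r) := by ring
    rw [e]
    calc μ (ball x (2 * (2 ^ n * r))) ≤ C * μ (ball x (2 ^ n * r)) := hd x _ (by positivity)
      _ ≤ C * (C ^ n * μ (ball x r)) := by gcongr
      _ = _ := by ring

/-- A complete space with a doubling measure is proper. -/
theorem properSpace_of_doubling [BorelSpace X] [CompleteSpace X] {μ : Measure X}
    (hpos : ∀ (x : X) (r : ℝ), 0 < r → 0 < μ (ball x r)) (hfin : ∀ (x : X) (r : ℝ), μ (ball x r) < ∞)
    {C : ℝ≥0} (hd : ∀ (x : X) (r : ℝ), 0 < r → μ (ball x (2 * r)) ≤ C * μ (ball x r)) :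
    ProperSpace X := by
  refine ⟨fun x0 R => ?_⟩
  refine TotallyBounded.isCompact_of_isClosed (totallyBounded_iff.2 fun ε hε => ?_)
    isClosed_closedBall
  obtain ⟨u, hu, hdisj, hcov⟩ := Vitali.exists_disjoint_subfamily_covering_enlargement_ball
    (closedBall x0 R) (fun x => x) (fun _ => ε / 4) (ε / 4) (fun _ _ => le_rfl) 4 (by norm_num)
  have hcov' : closedBall x0 R ⊆ ⋃ y ∈ u, ball y ε := by
    intro x hx
    obtain ⟨b, hb, hb2⟩ := hcov x hx
    refine mem_biUnion hb ?_
    have := hb2 (mem_ball_self (by positivity))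
    rwa [show (4 : ℝ) * (ε / 4) = ε by ring] at this
  refine ⟨u, ?_, hcov'⟩
  rcases (closedBall x0 R).eq_empty_or_nonempty with hem | hne
  · rw [hem] at hu
    rw [subset_empty_iff.1 hu]
    exact finite_empty
  have hR : 0 ≤ R := nonempty_closedBall.1 hne
  obtain ⟨k, hk⟩ := pow_unbounded_of_one_lt ((2 * R + 2 * ε) / (ε / 4)) (show (1 : ℝ) < 2 by norm_num)
  rw [div_lt_iff₀ (by positivity)] at hk
  set c : ℝ≥0∞ := μ (ball x0 (R + ε)) / C ^ k with hc
  have hC0 : (C : ℝ≥0∞) ^ k ≠ 0 := by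
    intro h0
    have := doubling_iter hd k x0 (r := 1) one_pos
    rw [h0, zero_mul] at this
    exact absurd (hpos x0 (2 ^ k * 1) (by positivity)) (not_lt.2 this)
  have hCt : (C : ℝ≥0∞) ^ k ≠ ∞ := ENNReal.pow_ne_top ENNReal.coe_ne_top
  have hc0 : 0 < c := ENNReal.div_pos (hpos _ _ (by positivity)).ne' hCt
  have hcb : ∀ b ∈ u, c ≤ μ (ball b (ε / 4)) := by
    intro b hb
    rw [hc, ENNReal.div_le_iff hC0 hCt, mul_comm]
    refine le_trans (measure_mono ?_) (doubling_iter hd k b (by positivity))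
    refine ball_subset_ball' ?_
    have := hu hb
    rw [mem_closedBall, dist_comm] at this
    linarith
  have hsub : (⋃ b : u, ball (b : X) (ε / 4)) ⊆ ball x0 (R + ε) := by
    refine iUnion_subset fun b => ball_subset_ball' ?_
    have := hu b.2
    rw [mem_closedBall] at this
    linarith
  have hfinite := Measure.finite_const_le_meas_of_disjoint_iUnion μ hc0
    (As := fun b : u => ball (b : X) (ε / 4)) (fun b => measurableSet_ball)
    (fun a b hab => hdisj a.2 b.2 (fun h => hab (Subtype.ext h)))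
    ((measure_mono hsub).trans_lt (hfin _ _)).ne
  have huniv : {b : u | c ≤ μ (ball (b : X) (ε / 4))} = univ :=
    eq_univ_of_forall fun b => hcb b b.2
  rw [huniv] at hfinite
  exact Set.finite_coe_iff.1 (Set.finite_univ_iff.1 hfinite)

lemma isUnifLocDoublingMeasure_of_doubling {μ : Measure X} {C : ℝ≥0}
    (hd : ∀ (x : X) (r : ℝ), 0 < r → μ (ball x (2 * r)) ≤ C * μ (ball x r)) :
    IsUnifLocDoublingMeasure μ := by
  refine ⟨C ^ 2, ?_⟩
  filter_upwards [self_mem_nhdsWithin] with ε hε x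
  have hε : 0 < ε := hε
  calc μ (closedBall x (2 * ε)) ≤ μ (ball x (2 ^ 2 * ε)) :=
        measure_mono (closedBall_subset_ball (by linarith))
    _ ≤ C ^ 2 * μ (ball x ε) := doubling_iter hd 2 x hε
    _ ≤ (C ^ 2 : ℝ≥0) * μ (closedBall x ε) := by
        push_cast
        gcongr
        exact ball_subset_closedBall

lemma isFiniteMeasureOnCompacts_of_finite {μ : Measure X} (hfin : ∀ (x : X) (r : ℝ), μ (ball x r) < ∞) :
    IsFiniteMeasureOnCompacts μ := by
  refine ⟨fun K hK => ?_⟩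
  rcases isEmpty_or_nonempty X with hX | ⟨⟨x0⟩⟩
  · have : K = ∅ := by ext x; exact (hX.false x).elim
    rw [this]; simp
  · obtain ⟨r, hr⟩ := hK.isBounded.subset_ball x0
    exact (measure_mono hr).trans_lt (hfin x0 r)

end Pool.Agent.J6H97.BVQ
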