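import Pool.Agent.J6H97.BVQ.Layer

/-!
# Extension by zero of Lipschitz functions with small support across a quasiminimal boundary
-/

open MeasureTheory Filter Set Metric
open scoped ENNReal Topology NNReal

namespace Pool.Agent.J6H97.BVQ

variable {X : Type*} [MetricSpace X] [MeasurableSpace X]

lemma tvOpen_zero {μ : Measure X} {A : Set X} : tvOpen μ (fun _ => (0 : ℝ)) A = 0 := by
  refine le_antisymm ?_ bot_le
  refine (tvOpen_le (fun _ _ => (0 : ℝ)) (fun _ => ?_) fun C _ _ => ?_).trans ?_
  · exact (LocallyLipschitz.const 0).locallyLipschitzOn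
  · simp
  · simp [lipa_const]

lemma tvOpen_empty {μ : Measure X} {f : X → ℝ} : tvOpen μ f ∅ = 0 := by
  refine le_antisymm ?_ bot_le
  refine (tvOpen_le (fun _ _ => (0 : ℝ)) (fun _ => ?_) fun C hC _ => ?_).trans ?_
  · exact (LocallyLipschitz.const 0).locallyLipschitzOn
  · simp [subset_empty_iff.1 hC]
  · simp

lemma tvOpen_sum_le [BorelSpace X] {μ : Measure X} {A : Set X} (hA : IsOpen A) {ι : Type*}
    (s : Finset ι) (f : ι → X → ℝ) (hf : ∀ i, AEMeasurable (f i) (μ.restrict A)) :
    tvOpen μ (fun x => ∑ i ∈ s, f i x) A ≤ ∑ i ∈ s, tvOpen μ (f i) A := by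
  classical
  induction s using Finset.induction_on with
  | empty => simp [tvOpen_zero]
  | insert a s ha ih =>
    simp_rw [Finset.sum_insert ha]
    exact (tvOpen_add_le hA (hf a)).trans (by gcongr)

variable [BorelSpace X] [ProperSpace X]

/-- The total variation of a truncation `cut b η ∘ g` times `χ_Ω`. -/
theorem tv_cut_le {μ : Measure X} [IsFiniteMeasureOnCompacts μ] {Ω : Set X}
    (hΩ : MeasurableSet Ω) {g : X → ℝ} (hg : LocallyLipschitz g) (hgs : HasCompactSupport g)
    {b η : ℝ} (hb : 0 ≤ b) (hη : 0 < η) (hfin : tvOpen μ (chi Ω) {x | b < g x} < ∞) :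
    tvOpen μ (fun x => cut b η (g x) * chi Ω x) univ ≤
      ENNReal.ofReal η * tvOpen μ (chi Ω) {x | b < g x} +
        ∫⁻ x in Ω ∩ {x | b < g x ∧ g x ≤ b + 2 * η}, lipa g x ∂μ := by
  have hgc : Continuous g := hg.continuous
  set δ : ℕ → ℝ := fun j => η / ((j : ℝ) + 1) with hδ
  have hδ0 : ∀ j, 0 < δ j := fun j => by positivity
  have hδη : ∀ j, δ j ≤ η := fun j => div_le_self hη.le (by linarith [(j.cast_nonneg : (0:ℝ) ≤ j)])
  have hδlim : Tendsto δ atTop (𝓝 0) := by
    have := (tendsto_one_div_add_atTop_nhds_zero_nat (𝕜 := ℝ)).const_mul η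
    simpa [hδ, div_eq_mul_inv] using this
  have hll : ∀ j, LocallyLipschitz fun x => cut (b + δ j) η (g x) := fun j =>
    (cut_lipschitz _ _).locallyLipschitz.comp hg
  have habs : ∀ β x, ‖cut β η (g x)‖ₑ ≤ Real.toNNReal η := by
    intro β x
    rw [Real.enorm_eq_ofReal_abs, abs_of_nonneg (cut_nonneg hη.le _)]
    exact ENNReal.ofReal_le_ofReal (cut_le _ _ _)
  have hdiff : ∀ β β' x, ‖cut β η (g x) - cut β' η (g x)‖ₑ ≤ Real.toNNReal η := by
    intro β β' x
    rw [Real.enorm_eq_ofReal_abs]
    refine ENNReal.ofReal_le_ofReal ?_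
    rw [abs_le]
    constructor <;>
    linarith [cut_nonneg (b := β) hη.le (g x), cut_nonneg (b := β') hη.le (g x),
      cut_le β η (g x), cut_le β' η (g x)]
  refine tvOpen_lsc_le isOpen_univ (fun j x => cut (b + δ j) η (g x) * chi Ω x) (fun j => ?_)
    (fun C _ hCc => ?_) fun j => ?_
  · exact ((hll j).continuous.measurable.mul (measurable_const.indicator hΩ)).aemeasurable
  · refine conv_of_pointwise (H := Real.toNNReal η) hCc.measure_lt_top (fun n => ?_)
      (fun n x => ?_) fun x => ?_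
    · refine (((hll n).continuous.measurable.mul (measurable_const.indicator hΩ)).sub
        (Measurable.mul ?_ (measurable_const.indicator hΩ))).enorm.aemeasurable
      exact ((cut_lipschitz b η).continuous.comp hgc).measurable
    · rw [← sub_mul, enorm_mul]
      calc _ ≤ (Real.toNNReal η : ℝ≥0∞) * 1 := by
            gcongr
            · exact hdiff _ _ _
            · exact enorm_chi_le _ _
        _ = _ := mul_one _
    · refine Tendsto.mul_const _ ?_
      have h1 : Tendsto (fun n => g x - (b + δ n)) atTop (𝓝 (g x - (b + 0))) :=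
        (hδlim.const_add b).const_sub (g x)
      rw [add_zero] at h1
      exact (h1.max tendsto_const_nhds).min tendsto_const_nhds
  · set Z : Set X := {x | b + δ j ≤ g x ∧ g x ≤ b + δ j + η} with hZ
    have hZc : IsCompact Z := isCompact_level hgc hgs (by linarith [hδ0 j])
    obtain ⟨M, hM⟩ := exists_lipa_bound (hll j) hZc
    have hmain := tvOpen_mul_chi_le (μ := μ) hΩ (A := univ)
      (O := {x | b < g x}) (Z := Z) isOpen_univ (isOpen_lt continuous_const hgc)
      (subset_univ _)
      (h := fun x => cut (b + δ j) η (g x)) ((hll j).locallyLipschitzOn) (H := Real.toNNReal η)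
      (fun x _ => habs _ _) (fun x hx => ?_) hZc (fun x hx => ?_) (fun x hx => ?_) hM hfin
    · refine hmain.trans (add_le_add le_rfl ?_)
      refine (lintegral_mono (g := lipa g) fun x => ?_).trans (lintegral_mono_set ?_)
      · have := lipa_comp_le (f := g) (cut_lipschitz (b + δ j) η) x
        rwa [ENNReal.coe_one, one_mul] at this
      · refine inter_subset_inter_right _ fun x hx => ⟨?_, ?_⟩
        · linarith [hx.1, hδ0 j]
        · linarith [hx.2, hδη j]
    · have h1 : g x ≤ b := by
        by_contra hlt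
        exact hx.2 (not_le.1 hlt)
      have h2 : ∀ᶠ y in 𝓝 x, g y < b + δ j :=
        hgc.continuousAt.eventually_lt_const (by linarith [hδ0 j])
      filter_upwards [h2] with y hy
      exact cut_eq_zero hη.le hy.le
    · show b < g x
      linarith [hδ0 j, hx.1]
    · by_cases h1 : g x < b + δ j
      · refine lipa_eq_zero (c := 0) ?_
        have h2 : ∀ᶠ y in 𝓝 x, g y < b + δ j := hgc.continuousAt.eventually_lt_const h1
        filter_upwards [h2] with y hy
        exact cut_eq_zero hη.le hy.le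
      · have h1' : b + δ j + η < g x := by
          by_contra hlt
          exact hx.2 ⟨not_lt.1 h1, not_lt.1 hlt⟩
        refine lipa_eq_zero (c := η) ?_
        have h2 : ∀ᶠ y in 𝓝 x, b + δ j + η < g y := hgc.continuousAt.eventually_const_lt h1'
        filter_upwards [h2] with y hy
        exact cut_eq hη.le hy.le

lemma sum_Q_le {P Q : ℕ → ℝ≥0∞} (h : ∀ k, Q k + P (k + 2) ≤ P k) (N : ℕ) :
    ∑ k ∈ Finset.range N, Q k + P N + P (N + 1) ≤ P 0 + P 1 := by
  induction N with
  | zero => simp
  | succ n ih =>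
    rw [Finset.sum_range_succ]
    calc ∑ k ∈ Finset.range n, Q k + Q n + P (n + 1) + P (n + 1 + 1)
        = ∑ k ∈ Finset.range n, Q k + (Q n + P (n + 2)) + P (n + 1) := by ring
      _ ≤ ∑ k ∈ Finset.range n, Q k + P n + P (n + 1) := by gcongr; exact h n
      _ ≤ _ := ih

omit [ProperSpace X] in
lemma sum_layers_le {μ : Measure X} {Ω : Set X} (hΩ : MeasurableSet Ω) {g : X → ℝ}
    (hg : Continuous g) {η : ℝ} (hη : 0 < η) (w : X → ℝ≥0∞) (N : ℕ) :
    ∑ k ∈ Finset.range N, ∫⁻ x in Ω ∩ {x | (k : ℝ) * η < g x ∧ g x ≤ k * η + η}, w x ∂μ ≤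
      ∫⁻ x in Ω ∩ {x | g x ≤ N * η}, w x ∂μ := by
  induction N with
  | zero => simp
  | succ n ih =>
    rw [Finset.sum_range_succ]
    refine (add_le_add ih le_rfl).trans ?_
    rw [← lintegral_union]
    · refine lintegral_mono_set (union_subset ?_ ?_)
      · refine inter_subset_inter_right _ fun x hx => ?_
        have hx : g x ≤ n * η := hx
        show g x ≤ ((n + 1 : ℕ) : ℝ) * η
        push_cast
        nlinarith
      · refine inter_subset_inter_right _ fun x hx => ?_
        have hx := hx.2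
        show g x ≤ ((n + 1 : ℕ) : ℝ) * η
        push_cast
        nlinarith
    · exact hΩ.inter ((isOpen_lt continuous_const hg).measurableSet.inter
        (isClosed_le hg continuous_const).measurableSet)
    · rw [Set.disjoint_left]
      rintro x ⟨_, hx1⟩ ⟨_, hx2, _⟩
      exact absurd hx2 (not_lt.2 hx1)

/-- Extension by zero of a nonnegative Lipschitz function whose support lies in an open set where
`Ω` is quasiminimal: `|D(g χ_Ω)|(X) ≤ (2 K + 2) ∫_Ω lip_a g`. -/
theorem tv_ext_le {μ : Measure X} [IsFiniteMeasureOnCompacts μ] {K : ℝ≥0} {Ω V : Set X}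
    (hΩ : MeasurableSet Ω) (hK : IsQuasiminimal μ K Ω V) {g : X → ℝ}
    (hg : LocallyLipschitz g) (hgs : HasCompactSupport g) (hgV : tsupport g ⊆ V)
    (hg0 : ∀ x, 0 ≤ g x) (hfin : tvOpen μ (chi Ω) {x | 0 < g x} < ∞) :
    tvOpen μ (fun x => g x * chi Ω x) univ ≤ (2 * K + 2) * ∫⁻ x in Ω, lipa g x ∂μ := by
  have hgc : Continuous g := hg.continuous
  obtain ⟨m, hm0, hm⟩ : ∃ m : ℝ, 0 < m ∧ ∀ x, g x ≤ m := by
    obtain ⟨C, hC⟩ := hgs.exists_bound_of_continuous hgc
    refine ⟨max C 1, by positivity, fun x => ?_⟩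
    exact (le_abs_self _).trans ((hC x).trans (le_max_left _ _))
  set I : ℝ≥0∞ := ∫⁻ x in Ω, lipa g x ∂μ with hI
  have hIfin : I < ∞ := (setLIntegral_le_lintegral _ _).trans_lt (lintegral_lipa_ne_top hg hgs)
  set P0 := tvOpen μ (chi Ω) {x | 0 < g x} with hP0
  -- the estimate for a fixed mesh
  have hN : ∀ n : ℕ, tvOpen μ (fun x => g x * chi Ω x) univ ≤
      K * (2 * ENNReal.ofReal (m / ((n : ℝ) + 1)) * P0 +
        2 * (I + ENNReal.ofReal (m ^ 2 / ((n : ℝ) + 1)))) + 2 * I := by
    intro n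
    set N := n + 1 with hNn
    set η : ℝ := m / ((n : ℝ) + 1) with hη
    have hη0 : 0 < η := by positivity
    have hNη : (N : ℝ) * η = m := by rw [hNn, hη]; push_cast; field_simp
    have hP : ∀ k : ℕ, tvOpen μ (chi Ω) {x | (k : ℝ) * η < g x} ≤ P0 := fun k =>
      tvOpen_mono fun x hx => by
        have hx : (k : ℝ) * η < g x := hx
        have : 0 ≤ (k : ℝ) * η := by positivity
        show 0 < g x
        linarith
    have hPfin : ∀ k : ℕ, tvOpen μ (chi Ω) {x | (k : ℝ) * η < g x} < ∞ := fun k =>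
      (hP k).trans_lt hfin
    set J : ℕ → ℝ≥0∞ := fun k =>
      ∫⁻ x in Ω ∩ {x | (k : ℝ) * η < g x ∧ g x ≤ k * η + η}, lipa g x ∂μ with hJ
    have hJfin : ∀ k, J k ≠ ∞ := fun k =>
      ((lintegral_mono_set inter_subset_left).trans_lt hIfin).ne
    have hJsum : ∀ N : ℕ, ∑ k ∈ Finset.range N, J k ≤ I := fun N =>
      (sum_layers_le hΩ hgc hη0 _ N).trans (lintegral_mono_set inter_subset_left)
    set Q : ℕ → ℝ≥0∞ := fun k =>
      tvOpen μ (chi Ω) {x | (k : ℝ) * η < g x ∧ g x < k * η + 2 * η} with hQ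
    have hQP : ∀ k : ℕ, Q k + tvOpen μ (chi Ω) {x | ((k + 2 : ℕ) : ℝ) * η < g x} ≤
        tvOpen μ (chi Ω) {x | (k : ℝ) * η < g x} := by
      intro k
      refine tvOpen_superadd (isOpen_lt continuous_const hgc).measurableSet (fun x hx => hx.1)
        (fun x hx => ?_) ?_
      · have hx : ((k + 2 : ℕ) : ℝ) * η < g x := hx
        push_cast at hx
        show (k : ℝ) * η < g x
        nlinarith
      · rw [Set.disjoint_left]
        rintro x ⟨_, hx1⟩ hx2
        have hx2 : ((k + 2 : ℕ) : ℝ) * η < g x := hx2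
        push_cast at hx2
        nlinarith
    have hQsum : ∑ k ∈ Finset.range N, Q k ≤ 2 * P0 := by
      have h1 := sum_Q_le hQP N
      calc ∑ k ∈ Finset.range N, Q k ≤ _ := le_self_add.trans (le_self_add.trans h1)
        _ ≤ P0 + P0 := add_le_add (hP 0) (hP 1)
        _ = 2 * P0 := (two_mul _).symm
    have hlay : ∀ k : ℕ, ENNReal.ofReal η * tvOpen μ (chi Ω) {x | (k : ℝ) * η < g x} ≤
        K * (ENNReal.ofReal η * Q k + 2 * (J k + ENNReal.ofReal (η ^ 2))) := by
      intro k
      have h1 := per_le_layer hΩ hK hg hgs hgV (t := (k : ℝ) * η) (η := η) (by positivity) hη0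
        (hPfin k)
      have h2 : ENNReal.ofReal η * ENNReal.ofReal ((J k).toReal / η + η) =
          J k + ENNReal.ofReal (η ^ 2) := by
        rw [← ENNReal.ofReal_mul hη0.le]
        have : η * ((J k).toReal / η + η) = (J k).toReal + η ^ 2 := by field_simp
        rw [this, ENNReal.ofReal_add ENNReal.toReal_nonneg (by positivity),
          ENNReal.ofReal_toReal (hJfin k)]
      calc ENNReal.ofReal η * tvOpen μ (chi Ω) {x | (k : ℝ) * η < g x}
          ≤ ENNReal.ofReal η * (K * (Q k + 2 * ENNReal.ofReal ((J k).toReal / η + η))) := by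
            gcongr
        _ = K * (ENNReal.ofReal η * Q k +
              2 * (ENNReal.ofReal η * ENNReal.ofReal ((J k).toReal / η + η))) := by ring
        _ = _ := by rw [h2]
    have hNsq : (N : ℝ≥0∞) * ENNReal.ofReal (η ^ 2) = ENNReal.ofReal (m ^ 2 / ((n : ℝ) + 1)) := by
      rw [← ENNReal.ofReal_natCast, ← ENNReal.ofReal_mul (by positivity)]
      congr 1
      rw [hNn, hη]
      push_cast
      field_simp
    have hcut : ∀ k : ℕ, tvOpen μ (fun x => cut (k * η) η (g x) * chi Ω x) univ ≤
        ENNReal.ofReal η * tvOpen μ (chi Ω) {x | (k : ℝ) * η < g x} + (J k + J (k + 1)) := by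
      intro k
      refine (tv_cut_le hΩ hg hgs (by positivity) hη0 (hPfin k)).trans ?_
      gcongr
      have hsub : Ω ∩ {x | (k : ℝ) * η < g x ∧ g x ≤ k * η + 2 * η} ⊆
          (Ω ∩ {x | (k : ℝ) * η < g x ∧ g x ≤ k * η + η}) ∪
          (Ω ∩ {x | ((k + 1 : ℕ) : ℝ) * η < g x ∧ g x ≤ ((k + 1 : ℕ) : ℝ) * η + η}) := by
        rintro x ⟨hx, hx1, hx2⟩
        rcases le_or_gt (g x) (k * η + η) with h | h
        · exact Or.inl ⟨hx, hx1, h⟩
        · refine Or.inr ⟨hx, ?_, ?_⟩
          · push_cast; linarith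
          · push_cast; linarith
      exact (lintegral_mono_set hsub).trans (lintegral_union_le _ _ _)
    have hsum : (fun x => g x * chi Ω x) =
        fun x => ∑ k ∈ Finset.range N, cut (k * η) η (g x) * chi Ω x := by
      funext x
      rw [← Finset.sum_mul, sum_cut hη0.le N (g x) (hg0 x), hNη, min_eq_left (hm x)]
    rw [hsum]
    refine (tvOpen_sum_le isOpen_univ (Finset.range N) (fun k x => cut (k * η) η (g x) * chi Ω x)
      (fun k => ?_)).trans ?_
    · exact ((((cut_lipschitz _ _).continuous.comp hgc).measurable).mul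
        (measurable_const.indicator hΩ)).aemeasurable
    calc ∑ k ∈ Finset.range N, tvOpen μ (fun x => cut (k * η) η (g x) * chi Ω x) univ
        ≤ ∑ k ∈ Finset.range N,
          (K * (ENNReal.ofReal η * Q k + 2 * (J k + ENNReal.ofReal (η ^ 2))) +
            (J k + J (k + 1))) := by
          exact Finset.sum_le_sum fun k _ => (hcut k).trans (add_le_add (hlay k) le_rfl)
      _ = K * (ENNReal.ofReal η * ∑ k ∈ Finset.range N, Q k +
            2 * (∑ k ∈ Finset.range N, J k + N * ENNReal.ofReal (η ^ 2))) +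
            (∑ k ∈ Finset.range N, J k + ∑ k ∈ Finset.range N, J (k + 1)) := by
          rw [Finset.sum_add_distrib, ← Finset.mul_sum, Finset.sum_add_distrib, ← Finset.mul_sum,
            ← Finset.mul_sum, Finset.sum_add_distrib, Finset.sum_add_distrib, Finset.sum_const,
            Finset.card_range, nsmul_eq_mul]
      _ ≤ K * (ENNReal.ofReal η * (2 * P0) + 2 * (I + ENNReal.ofReal (m ^ 2 / ((n : ℝ) + 1)))) +
            (I + I) := by
          rw [hNsq]
          gcongr
          · exact hJsum N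
          · exact hJsum N
          · have h1 := hJsum (N + 1)
            rw [Finset.sum_range_succ'] at h1
            exact le_self_add.trans h1
      _ = _ := by ring
  -- the limit
  have hlim : Tendsto (fun n : ℕ => (K : ℝ≥0∞) * (2 * ENNReal.ofReal (m / ((n : ℝ) + 1)) * P0 +
        2 * (I + ENNReal.ofReal (m ^ 2 / ((n : ℝ) + 1)))) + 2 * I) atTop
      (𝓝 (K * (2 * 0 * P0 + 2 * (I + 0)) + 2 * I)) := by
    have h1 : ∀ c : ℝ, Tendsto (fun n : ℕ => ENNReal.ofReal (c / ((n : ℝ) + 1))) atTop (𝓝 0) := by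
      intro c
      have h2 := (tendsto_one_div_add_atTop_nhds_zero_nat (𝕜 := ℝ)).const_mul c
      have h3 : Tendsto (fun n : ℕ => c / ((n : ℝ) + 1)) atTop (𝓝 0) := by
        simpa [div_eq_mul_inv] using h2
      have := ENNReal.tendsto_ofReal h3
      simpa using this
    refine Tendsto.add_const _ (ENNReal.Tendsto.const_mul ?_ (Or.inr ENNReal.coe_ne_top))
    refine Tendsto.add ?_ ?_
    · refine ENNReal.Tendsto.mul_const ?_ (Or.inr hfin.ne)
      exact ENNReal.Tendsto.const_mul (h1 m) (Or.inr (by simp))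
    · exact ENNReal.Tendsto.const_mul ((h1 (m ^ 2)).const_add _) (Or.inr (by simp))
  refine (ge_of_tendsto' hlim hN).trans (le_of_eq ?_)
  ring

end Pool.Agent.J6H97.BVQ
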