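import Pool.Agent.J6H97.BVQ.Weight

/-!
# Cutting a quasiminimal set along the level sets of a Lipschitz function
-/

open MeasureTheory Filter Set Metric
open scoped ENNReal Topology NNReal

namespace Pool.Agent.J6H97.BVQ

/-! ### ramps and cuts -/

/-- The function which is `1` on `(-∞, a]`, `0` on `[s, ∞)` and affine in between. -/
noncomputable def ramp (a s τ : ℝ) : ℝ := max 0 (min 1 ((s - τ) / (s - a)))

/-- The function which is `0` on `(-∞, b]`, `η` on `[b + η, ∞)` and affine in between. -/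
noncomputable def cut (b η τ : ℝ) : ℝ := min (max (τ - b) 0) η

lemma ramp_eq_one {a s τ : ℝ} (h : a < s) (hτ : τ ≤ a) : ramp a s τ = 1 := by
  have h1 : 1 ≤ (s - τ) / (s - a) := by rw [le_div_iff₀ (by linarith)]; linarith
  rw [ramp, min_eq_left h1, max_eq_right zero_le_one]

lemma ramp_eq_zero {a s τ : ℝ} (h : a < s) (hτ : s ≤ τ) : ramp a s τ = 0 := by
  have h1 : (s - τ) / (s - a) ≤ 0 := div_nonpos_of_nonpos_of_nonneg (by linarith) (by linarith)
  rw [ramp, max_eq_left ((min_le_right _ _).trans h1)]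

lemma ramp_nonneg (a s τ : ℝ) : 0 ≤ ramp a s τ := le_max_left _ _

lemma ramp_le_one (a s τ : ℝ) : ramp a s τ ≤ 1 := max_le zero_le_one (min_le_left _ _)

lemma ramp_lipschitz {a s : ℝ} (h : a < s) : LipschitzWith (Real.toNNReal (1 / (s - a))) (ramp a s) := by
  have h0 : LipschitzWith (Real.toNNReal (1 / (s - a))) fun τ : ℝ => (s - τ) / (s - a) := by
    refine LipschitzWith.of_dist_le_mul fun x y => ?_
    rw [Real.coe_toNNReal _ (by have : 0 < s - a := by linarith
                                positivity), Real.dist_eq, Real.dist_eq]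
    have e : (s - x) / (s - a) - (s - y) / (s - a) = (1 / (s - a)) * (-(x - y)) := by ring
    rw [e, abs_mul, abs_neg, abs_of_pos (by have : 0 < s - a := by linarith
                                            positivity)]
  exact (h0.const_min 1).const_max 0

lemma cut_eq_zero {b η τ : ℝ} (hη : 0 ≤ η) (h : τ ≤ b) : cut b η τ = 0 := by
  rw [cut, max_eq_right (by linarith), min_eq_left hη]

lemma cut_eq {b η τ : ℝ} (hη : 0 ≤ η) (h : b + η ≤ τ) : cut b η τ = η := by
  rw [cut, max_eq_left (by linarith), min_eq_right (by linarith)]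

lemma cut_nonneg {b η : ℝ} (hη : 0 ≤ η) (τ : ℝ) : 0 ≤ cut b η τ := le_min (le_max_right _ _) hη

lemma cut_le (b η τ : ℝ) : cut b η τ ≤ η := min_le_right _ _

lemma cut_lipschitz (b η : ℝ) : LipschitzWith 1 (cut b η) := by
  have h0 : LipschitzWith 1 fun τ : ℝ => τ - b := by
    refine LipschitzWith.of_dist_le_mul fun x y => ?_
    simp [Real.dist_eq]
  exact (h0.max_const 0).min_const η

lemma sum_cut {η : ℝ} (hη : 0 ≤ η) (N : ℕ) (τ : ℝ) (h0 : 0 ≤ τ) :
    ∑ k ∈ Finset.range N, cut (k * η) η τ = min τ (N * η) := by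
  induction N with
  | zero => simp [h0]
  | succ n ih =>
    rw [Finset.sum_range_succ, ih, cut]
    push_cast
    rcases le_total τ (n * η) with h | h
    · rw [min_eq_left h, max_eq_right (by linarith), min_eq_left hη,
        min_eq_left (by linarith), add_zero]
    · rw [min_eq_right h, max_eq_left (by linarith)]
      rcases le_total τ ((n + 1) * η) with h' | h'
      · rw [min_eq_left h', min_eq_left (by linarith)]; ring
      · rw [min_eq_right h', min_eq_right (by linarith)]; ring

/-! ### the growth lemma -/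

lemma growth {Φ : ℝ → ℝ} (hΦ : Monotone Φ) {a b M : ℝ} (hab : a < b)
    (h : Φ b - Φ a < M * (b - a)) :
    ∃ s, a < s ∧ s ≤ b ∧ ∀ ε0 > 0, ∃ ε, 0 < ε ∧ ε < ε0 ∧ a ≤ s - ε ∧ Φ s - Φ (s - ε) ≤ M * ε := by
  by_contra hcon
  push Not at hcon
  set S : Set ℝ := {s | s ∈ Icc a b ∧ M * (b - s) ≤ Φ b - Φ s} with hS
  have hbS : b ∈ S := ⟨⟨hab.le, le_rfl⟩, by simp⟩
  have hbdd : BddBelow S := ⟨a, fun s hs => hs.1.1⟩
  set m := sInf S with hm
  have ham : a ≤ m := le_csInf ⟨b, hbS⟩ fun s hs => hs.1.1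
  have hmb : m ≤ b := csInf_le hbdd hbS
  have hmS : M * (b - m) ≤ Φ b - Φ m := by
    refine le_of_forall_pos_le_add fun δ hδ => ?_
    set δ' := δ / (|M| + 1) with hδ'
    have hMp : 0 < |M| + 1 := by positivity
    have hδ'0 : 0 < δ' := by positivity
    obtain ⟨s, hs, hsm⟩ := exists_lt_of_csInf_lt ⟨b, hbS⟩ (show sInf S < m + δ' by linarith)
    have h1 : m ≤ s := csInf_le hbdd hs
    have h2 : Φ m ≤ Φ s := hΦ h1
    have h3 := hs.2
    have h4 : M * (s - m) ≤ δ := by
      calc M * (s - m) ≤ |M| * (s - m) := by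
            have := le_abs_self M
            nlinarith
        _ ≤ (|M| + 1) * δ' := by nlinarith [abs_nonneg M]
        _ = δ := by rw [hδ']; field_simp
    nlinarith
  rcases ham.eq_or_lt with h1 | h1
  · rw [← h1] at hmS
    linarith
  · obtain ⟨ε0, hε0, hε⟩ := hcon m h1 hmb
    set ε := min (ε0 / 2) (m - a) with hεd
    have hεp : 0 < ε := lt_min (by linarith) (by linarith)
    have hε1 : ε < ε0 := lt_of_le_of_lt (min_le_left _ _) (by linarith)
    have hε2 : ε ≤ m - a := min_le_right _ _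
    have h2 := hε ε hεp hε1 (by linarith)
    have h3 : m - ε ∈ S := ⟨⟨by linarith, by linarith⟩, by nlinarith⟩
    have := csInf_le hbdd h3
    linarith

/-! ### convergence lemma -/

section conv

variable {X : Type*} [MetricSpace X] [MeasurableSpace X] [BorelSpace X]

omit [MetricSpace X] [BorelSpace X] in
lemma conv_of_pointwise {μ : Measure X} {u : ℕ → X → ℝ} {f : X → ℝ} {C : Set X} (hC : μ C < ∞)
    {H : ℝ≥0} (hu : ∀ n, AEMeasurable (fun x => ‖u n x - f x‖ₑ) (μ.restrict C))
    (hb : ∀ n x, ‖u n x - f x‖ₑ ≤ H) (h : ∀ x, Tendsto (fun n => u n x) atTop (𝓝 (f x))) :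
    Tendsto (fun n => ∫⁻ x in C, ‖u n x - f x‖ₑ ∂μ) atTop (𝓝 0) := by
  have h0 : ∫⁻ _ in C, (0 : ℝ≥0∞) ∂μ = 0 := by simp
  rw [← h0]
  refine tendsto_lintegral_of_dominated_convergence' (fun _ => (H : ℝ≥0∞)) hu
    (fun n => Eventually.of_forall (hb n)) ?_ (Eventually.of_forall fun x => ?_)
  · rw [setLIntegral_const]
    exact (ENNReal.mul_lt_top ENNReal.coe_lt_top hC).ne
  · have h1 : Tendsto (fun n => u n x - f x) atTop (𝓝 (f x - f x)) := (h x).sub_const _
    rw [sub_self] at h1
    have h2 := (continuous_enorm.tendsto (0 : ℝ)).comp h1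
    simpa [Function.comp_def] using h2

end conv

/-! ### the cut set -/

section layer

variable {X : Type*} [MetricSpace X] [MeasurableSpace X] [BorelSpace X] [ProperSpace X]

omit [BorelSpace X] [MeasurableSpace X] [ProperSpace X] in
lemma isCompact_level {g : X → ℝ} (hg : Continuous g) (hgs : HasCompactSupport g) {a b : ℝ}
    (ha : 0 < a) : IsCompact {x | a ≤ g x ∧ g x ≤ b} := by
  refine hgs.isCompact.of_isClosed_subset ?_ fun x hx => ?_
  · exact (isClosed_le continuous_const hg).inter (isClosed_le hg continuous_const)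
  · refine subset_tsupport g ?_
    rw [Function.mem_support]
    have := hx.1
    linarith

omit [MeasurableSpace X] [BorelSpace X] in
lemma exists_lipa_bound {g : X → ℝ} (hg : LocallyLipschitz g) {Z : Set X} (hZ : IsCompact Z) :
    ∃ M : ℝ≥0, ∀ x ∈ Z, lipa g x ≤ M := by
  obtain ⟨K, hK⟩ : ∃ K, LipschitzOnWith K g (cthickening 1 Z) :=
    hg.locallyLipschitzOn.exists_lipschitzOnWith_of_compact hZ.cthickening
  refine ⟨K, fun x hx => lipa_le_of_lipschitzOnWith (t := cthickening 1 Z) ?_ hK⟩
  refine mem_of_superset (ball_mem_nhds x one_pos) fun y hy => ?_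
  exact mem_cthickening_of_dist_le y x 1 Z hx (mem_ball.1 hy).le

/-- Total variation of `χ_{Ω ∩ {g < s}}` in `{t < g}`. -/
theorem tv_cutset_le {μ : Measure X} [IsFiniteMeasureOnCompacts μ] {Ω : Set X}
    (hΩ : MeasurableSet Ω) {g : X → ℝ} (hg : LocallyLipschitz g) (hgs : HasCompactSupport g)
    {t s s' : ℝ} (ht : 0 ≤ t) (hss : s < s')
    (hfin : tvOpen μ (chi Ω) {x | t < g x ∧ g x < s'} < ∞) {c : ℝ≥0∞}
    (hc : ∀ ε0 : ℝ, 0 < ε0 → ∃ ε, 0 < ε ∧ ε < ε0 ∧ t < s - ε ∧
      ENNReal.ofReal (1 / ε) * ∫⁻ x in Ω ∩ {x | s - ε ≤ g x ∧ g x ≤ s}, lipa g x ∂μ ≤ c) :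
    tvOpen μ (chi (Ω ∩ {x | g x < s})) {x | t < g x} ≤
      tvOpen μ (chi Ω) {x | t < g x ∧ g x < s'} + c := by
  have hgc : Continuous g := hg.continuous
  choose ε hε0 hεj hεt hεc using fun j : ℕ => hc (1 / ((j : ℝ) + 1)) (by positivity)
  have hAo : IsOpen {x | t < g x} := isOpen_lt continuous_const hgc
  have hOo : IsOpen {x | t < g x ∧ g x < s'} :=
    (isOpen_lt continuous_const hgc).inter (isOpen_lt hgc continuous_const)
  have hcs : ∀ j, LipschitzWith (Real.toNNReal (1 / (s - (s - ε j)))) (ramp (s - ε j) s) :=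
    fun j => ramp_lipschitz (by linarith [hε0 j])
  have hll : ∀ j, LocallyLipschitz fun x => ramp (s - ε j) s (g x) := fun j =>
    (hcs j).locallyLipschitz.comp hg
  refine tvOpen_lsc_le hAo (fun j x => ramp (s - ε j) s (g x) * chi Ω x) (fun j => ?_)
    (fun C _ hCc => ?_) fun j => ?_
  · exact ((hll j).continuous.measurable.mul (measurable_const.indicator hΩ)).aemeasurable
  · refine conv_of_pointwise (H := 1) hCc.measure_lt_top (fun n => ?_) (fun n x => ?_) fun x => ?_
    · refine (((hll n).continuous.measurable.mul (measurable_const.indicator hΩ)).sub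
        (measurable_const.indicator ?_)).enorm.aemeasurable
      exact hΩ.inter (isOpen_lt hgc continuous_const).measurableSet
    · by_cases hx : x ∈ Ω
      · by_cases hgx : g x < s
        · simp only [chi, indicator_of_mem hx, mem_inter_iff, hx, mem_ofPred_eq, hgx, and_self,
            indicator_of_mem, mul_one]
          rw [ENNReal.coe_one, Real.enorm_eq_ofReal_abs]
          refine ENNReal.ofReal_le_one.2 ?_
          rw [abs_le]
          constructor <;> linarith [ramp_nonneg (s - ε n) s (g x), ramp_le_one (s - ε n) s (g x)]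
        · have : x ∉ Ω ∩ {x | g x < s} := fun h => hgx h.2
          simp only [chi, indicator_of_mem hx, indicator_of_notMem this, mul_one, sub_zero]
          rw [ENNReal.coe_one, Real.enorm_eq_ofReal_abs]
          refine ENNReal.ofReal_le_one.2 ?_
          rw [abs_le]
          constructor <;> linarith [ramp_nonneg (s - ε n) s (g x), ramp_le_one (s - ε n) s (g x)]
      · have : x ∉ Ω ∩ {x | g x < s} := fun h => hx h.1
        simp [chi, hx]
    · by_cases hx : x ∈ Ω
      · by_cases hgx : g x < s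
        · have h1 : chi (Ω ∩ {x | g x < s}) x = 1 := by simp [chi, hx, hgx]
          have h2 : chi Ω x = 1 := by simp [chi, hx]
          rw [h1, h2]
          refine tendsto_const_nhds.congr' ?_
          obtain ⟨n0, hn0⟩ := exists_nat_one_div_lt (show 0 < s - g x by linarith)
          filter_upwards [eventually_ge_atTop n0] with n hn
          have h3 : (1 : ℝ) / ((n : ℝ) + 1) ≤ 1 / ((n0 : ℝ) + 1) :=
            one_div_le_one_div_of_le (by positivity) (by exact_mod_cast Nat.succ_le_succ hn)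
          rw [ramp_eq_one (by linarith [hε0 n]) (by linarith [hεj n]), mul_one]
        · have h1 : chi (Ω ∩ {x | g x < s}) x = 0 := by
            have : x ∉ Ω ∩ {x | g x < s} := fun h => hgx h.2
            simp [chi, indicator_of_notMem this]
          rw [h1]
          refine tendsto_const_nhds.congr fun n => ?_
          rw [ramp_eq_zero (by linarith [hε0 n]) (not_lt.1 hgx), zero_mul]
      · have h1 : chi (Ω ∩ {x | g x < s}) x = 0 := by
          have : x ∉ Ω ∩ {x | g x < s} := fun h => hx h.1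
          simp [chi, indicator_of_notMem this]
        have h2 : chi Ω x = 0 := by simp [chi, hx]
        simp [h1, h2]
  · -- the main estimate
    set Z : Set X := {x | s - ε j ≤ g x ∧ g x ≤ s} with hZ
    have hZc : IsCompact Z := isCompact_level hgc hgs (by linarith [hεt j])
    obtain ⟨M, hM⟩ := exists_lipa_bound (hll j) hZc
    have hmain := tvOpen_mul_chi_le (μ := μ) hΩ (A := {x | t < g x})
      (O := {x | t < g x ∧ g x < s'}) (Z := Z) hAo hOo (fun x hx => hx.1)
      (h := fun x => ramp (s - ε j) s (g x)) ((hll j).locallyLipschitzOn) (H := 1)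
      (fun x _ => ?_) (fun x hx => ?_) hZc (fun x hx => ?_) (fun x hx => ?_) hM hfin
    · refine hmain.trans ?_
      rw [ENNReal.coe_one, one_mul]
      gcongr
      refine le_trans ?_ (hεc j)
      rw [← lintegral_const_mul' _ _ ENNReal.ofReal_ne_top]
      refine lintegral_mono fun x => ?_
      have := lipa_comp_le (f := g) (hcs j) x
      rwa [sub_sub_cancel] at this
    · rw [ENNReal.coe_one, Real.enorm_eq_ofReal_abs]
      refine ENNReal.ofReal_le_one.2 ?_
      rw [abs_of_nonneg (ramp_nonneg _ _ _)]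
      exact ramp_le_one _ _ _
    · have h1 : s' ≤ g x := by
        by_contra hlt
        exact hx.2 ⟨hx.1, not_le.1 hlt⟩
      have h2 : ∀ᶠ y in 𝓝 x, s < g y := hgc.continuousAt.eventually_const_lt (by linarith)
      filter_upwards [h2] with y hy
      exact ramp_eq_zero (by linarith [hε0 j]) hy.le
    · exact ⟨by linarith [hεt j, hx.1], by linarith [hx.2]⟩
    · by_cases h1 : g x < s - ε j
      · refine lipa_eq_zero (c := 1) ?_
        have h2 : ∀ᶠ y in 𝓝 x, g y < s - ε j := hgc.continuousAt.eventually_lt_const h1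
        filter_upwards [h2] with y hy
        exact ramp_eq_one (by linarith [hε0 j]) hy.le
      · have h1' : s < g x := by
          by_contra hlt
          exact hx.2 ⟨not_lt.1 h1, not_lt.1 hlt⟩
        refine lipa_eq_zero (c := 0) ?_
        have h2 : ∀ᶠ y in 𝓝 x, s < g y := hgc.continuousAt.eventually_const_lt h1'
        filter_upwards [h2] with y hy
        exact ramp_eq_zero (by linarith [hε0 j]) hy.le

lemma lintegral_lipa_ne_top {μ : Measure X} [IsFiniteMeasureOnCompacts μ]
    {g : X → ℝ} (hg : LocallyLipschitz g) (hgs : HasCompactSupport g) :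
    ∫⁻ x, lipa g x ∂μ < ∞ := by
  obtain ⟨M, hM⟩ := exists_lipa_bound hg hgs.isCompact
  have h1 : ∀ x ∉ tsupport g, lipa g x = 0 := by
    intro x hx
    refine lipa_eq_zero (c := 0) ?_
    have : (tsupport g)ᶜ ∈ 𝓝 x := (isClosed_tsupport g).isOpen_compl.mem_nhds hx
    filter_upwards [this] with y hy
    exact image_eq_zero_of_notMem_tsupport hy
  rw [← lintegral_add_compl _ (isClosed_tsupport g).measurableSet]
  have h2 : ∫⁻ x in (tsupport g)ᶜ, lipa g x ∂μ = 0 := by
    rw [setLIntegral_congr_fun (g := fun _ => 0) (isClosed_tsupport g).measurableSet.compl]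
    · simp
    · exact fun x hx => h1 x hx
  rw [h2, add_zero]
  refine (setLIntegral_mono' (isClosed_tsupport g).measurableSet hM).trans_lt ?_
  rw [setLIntegral_const]
  exact ENNReal.mul_lt_top ENNReal.coe_lt_top hgs.isCompact.measure_lt_top

/-- The perimeter in a superlevel set is controlled by the perimeter in a layer and the energy of
`g` in that layer. -/
theorem per_le_layer {μ : Measure X} [IsFiniteMeasureOnCompacts μ] {K : ℝ≥0} {Ω V : Set X}
    (hΩ : MeasurableSet Ω) (hK : IsQuasiminimal μ K Ω V) {g : X → ℝ}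
    (hg : LocallyLipschitz g) (hgs : HasCompactSupport g) (hgV : tsupport g ⊆ V)
    {t η : ℝ} (ht : 0 ≤ t) (hη : 0 < η)
    (hfin : tvOpen μ (chi Ω) {x | t < g x} < ∞) :
    tvOpen μ (chi Ω) {x | t < g x} ≤ K * (tvOpen μ (chi Ω) {x | t < g x ∧ g x < t + 2 * η} +
      2 * ENNReal.ofReal
        ((∫⁻ x in Ω ∩ {x | t < g x ∧ g x ≤ t + η}, lipa g x ∂μ).toReal / η + η)) := by
  have hgc : Continuous g := hg.continuous
  have hI : ∫⁻ x, lipa g x ∂μ < ∞ := lintegral_lipa_ne_top hg hgs
  set Ψ : ℝ → ℝ≥0∞ := fun τ => ∫⁻ x in Ω ∩ {x | t < g x ∧ g x ≤ τ}, lipa g x ∂μ with hΨ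
  have hΨfin : ∀ τ, Ψ τ ≠ ∞ := fun τ => ((setLIntegral_le_lintegral _ _).trans_lt hI).ne
  have hΨm : Monotone Ψ := fun τ τ' h => lintegral_mono_set
    (inter_subset_inter_right _ fun x hx => ⟨hx.1, hx.2.trans h⟩)
  have hΦm : Monotone fun τ => (Ψ τ).toReal := fun τ τ' h =>
    (ENNReal.toReal_le_toReal (hΨfin _) (hΨfin _)).2 (hΨm h)
  have hΨt : Ψ t = 0 := by
    have : Ω ∩ {x | t < g x ∧ g x ≤ t} = ∅ := by
      ext x; simp only [mem_inter_iff, mem_ofPred_eq, mem_empty_iff_false, iff_false, not_and]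
      intro _ h1 h2; linarith
    simp only [hΨ, this, Measure.restrict_empty, lintegral_zero_measure]
  set M : ℝ := (Ψ (t + η)).toReal / η + η with hM
  have hM0 : 0 ≤ M := by positivity
  have hgr : (fun τ => (Ψ τ).toReal) (t + η) - (fun τ => (Ψ τ).toReal) t < M * (t + η - t) := by
    simp only [hΨt, ENNReal.toReal_zero, sub_zero, add_sub_cancel_left]
    have : M * η = (Ψ (t + η)).toReal + η * η := by rw [hM]; field_simp
    rw [this]
    nlinarith
  obtain ⟨s, hts, hs, hε⟩ := growth hΦm (by linarith) hgr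
  set s' := t + 2 * η with hs'
  have hss : s < s' := by rw [hs']; linarith
  have hfinO : tvOpen μ (chi Ω) {x | t < g x ∧ g x < s'} < ∞ :=
    (tvOpen_mono fun x hx => hx.1).trans_lt hfin
  have hcut := tv_cutset_le (μ := μ) hΩ hg hgs ht hss hfinO (c := 2 * ENNReal.ofReal M) (by
    intro ε0 hε0
    obtain ⟨ε, h1, h2, h3, h4⟩ := hε ε0 hε0
    refine ⟨ε / 2, by positivity, by linarith, by linarith, ?_⟩
    have hdisj : Disjoint (Ω ∩ {x | t < g x ∧ g x ≤ s - ε})
        (Ω ∩ {x | s - ε / 2 ≤ g x ∧ g x ≤ s}) := by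
      rw [Set.disjoint_left]
      rintro x ⟨_, _, hx1⟩ ⟨_, hx2, _⟩
      linarith
    have hmeas : MeasurableSet (Ω ∩ {x | s - ε / 2 ≤ g x ∧ g x ≤ s}) :=
      hΩ.inter ((isClosed_le continuous_const hgc).inter
        (isClosed_le hgc continuous_const)).measurableSet
    have hadd : Ψ (s - ε) + ∫⁻ x in Ω ∩ {x | s - ε / 2 ≤ g x ∧ g x ≤ s}, lipa g x ∂μ ≤ Ψ s := by
      rw [hΨ, ← lintegral_union hmeas hdisj]
      refine lintegral_mono_set (union_subset ?_ ?_)
      · exact inter_subset_inter_right _ fun x hx => ⟨hx.1, by linarith [hx.2]⟩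
      · exact inter_subset_inter_right _ fun x hx => ⟨by linarith [hx.1], hx.2⟩
    have hle : ∫⁻ x in Ω ∩ {x | s - ε / 2 ≤ g x ∧ g x ≤ s}, lipa g x ∂μ ≤
        ENNReal.ofReal (M * ε) := by
      have h5 : ∫⁻ x in Ω ∩ {x | s - ε / 2 ≤ g x ∧ g x ≤ s}, lipa g x ∂μ ≤
          Ψ s - Ψ (s - ε) := ENNReal.le_sub_of_add_le_left (hΨfin _) hadd
      refine h5.trans ?_
      rw [← ENNReal.ofReal_toReal (hΨfin s), ← ENNReal.ofReal_toReal (hΨfin (s - ε)),
        ← ENNReal.ofReal_sub _ ENNReal.toReal_nonneg]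
      exact ENNReal.ofReal_le_ofReal h4
    calc ENNReal.ofReal (1 / (ε / 2)) *
          ∫⁻ x in Ω ∩ {x | s - ε / 2 ≤ g x ∧ g x ≤ s}, lipa g x ∂μ
        ≤ ENNReal.ofReal (1 / (ε / 2)) * ENNReal.ofReal (M * ε) := by gcongr
      _ = ENNReal.ofReal (2 * M) := by
          rw [← ENNReal.ofReal_mul (by positivity)]
          congr 1
          field_simp
      _ = 2 * ENNReal.ofReal M := by
          rw [ENNReal.ofReal_mul (by norm_num)]
          simp)
  have hUo : IsOpen {x | t < g x} := isOpen_lt continuous_const hgc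
  have hUs : closure {x | t < g x} ⊆ tsupport g := by
    refine closure_mono fun x hx => ?_
    have : t < g x := hx
    rw [Function.mem_support]
    linarith
  have hGc : IsClosed {x | s ≤ g x} := isClosed_le continuous_const hgc
  have hGU : {x | s ≤ g x} ⊆ {x | t < g x} := fun x (hx : s ≤ g x) =>
    show t < g x by linarith
  have hq := hK {x | t < g x} hUo
    ⟨hgs.isCompact.of_isClosed_subset isClosed_closure hUs, hUs.trans hgV⟩
    ∅ {x | s ≤ g x} MeasurableSet.empty hGc.measurableSet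
    ⟨by simp, by simp⟩
    ⟨by
      rw [hGc.closure_eq]
      exact hgs.isCompact.of_isClosed_subset hGc ((hGU.trans subset_closure).trans hUs),
      by rw [hGc.closure_eq]; exact hGU⟩
  have hset : (Ω ∪ ∅) \ {x | s ≤ g x} = Ω ∩ {x | g x < s} := by
    ext x; simp
  rw [hset, Per, Per, tv_of_isOpen hUo, tv_of_isOpen hUo] at hq
  refine hq.trans ?_
  gcongr

end layer

end Pool.Agent.J6H97.BVQ
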