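import Pool.Agent.J6H97.BVQ.Defs

/-!
# Lipschitz constants: basic rules
-/

open MeasureTheory Filter Set Metric
open scoped ENNReal Topology NNReal

namespace Pool.Agent.J6H97.BVQ

variable {X : Type*} [MetricSpace X]

lemma lipOn_le {f : X → ℝ} {s : Set X} {K : ℝ≥0∞}
    (h : ∀ x ∈ s, ∀ y ∈ s, edist (f x) (f y) ≤ K * edist x y) : lipOn f s ≤ K :=
  iInf₂_le K h

lemma lipOn_spec (f : X → ℝ) {s : Set X} {x y : X} (hx : x ∈ s) (hy : y ∈ s) :
    edist (f x) (f y) ≤ lipOn f s * edist x y := by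
  rcases eq_or_ne x y with rfl | hxy
  · simp
  have h0 : edist x y ≠ 0 := by simpa using hxy
  have h1 : edist x y ≠ ∞ := edist_ne_top x y
  rw [← ENNReal.div_le_iff h0 h1]
  refine le_iInf₂ fun K hK => ?_
  rw [ENNReal.div_le_iff h0 h1]
  exact hK x hx y hy

lemma lipOn_mono (f : X → ℝ) {s t : Set X} (h : s ⊆ t) : lipOn f s ≤ lipOn f t :=
  lipOn_le fun _ hx _ hy => lipOn_spec f (h hx) (h hy)

lemma lipOn_le_of_lipschitzOnWith {f : X → ℝ} {s : Set X} {K : ℝ≥0} (h : LipschitzOnWith K f s) :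
    lipOn f s ≤ K :=
  lipOn_le fun _ hx _ hy => h hx hy

lemma lipa_le (f : X → ℝ) (x : X) {r : ℝ} (hr : 0 < r) : lipa f x ≤ lipOn f (ball x r) :=
  iInf₂_le r hr

lemma exists_of_lipa_lt {f : X → ℝ} {x : X} {c : ℝ≥0∞} (h : lipa f x < c) :
    ∃ r > 0, lipOn f (ball x r) < c := by
  simpa [lipa, iInf_lt_iff] using h

lemma tendsto_lipOn (f : X → ℝ) (x : X) :
    Tendsto (fun r : ℝ => lipOn f (ball x r)) (𝓝[>] 0) (𝓝 (lipa f x)) := by
  have hm : Monotone (fun r : ℝ => lipOn f (ball x r)) := fun a b hab =>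
    lipOn_mono f (ball_subset_ball hab)
  have h := hm.tendsto_nhdsGT 0
  have h2 : sInf ((fun r : ℝ => lipOn f (ball x r)) '' Ioi 0) = lipa f x := by
    rw [sInf_image]; rfl
  rwa [h2] at h

lemma lipa_le_of_lipschitzOnWith {f : X → ℝ} {x : X} {t : Set X} {K : ℝ≥0} (ht : t ∈ 𝓝 x)
    (h : LipschitzOnWith K f t) : lipa f x ≤ K := by
  obtain ⟨r, hr, hrt⟩ := Metric.mem_nhds_iff.1 ht
  exact (lipa_le f x hr).trans (lipOn_le_of_lipschitzOnWith (h.mono hrt))

lemma lipa_lt_top {f : X → ℝ} {A : Set X} (hA : IsOpen A) (h : LocallyLipschitzOn A f) {x : X}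
    (hx : x ∈ A) : lipa f x < ∞ := by
  obtain ⟨K, t, ht, hK⟩ := h hx
  rw [hA.nhdsWithin_eq hx] at ht
  exact (lipa_le_of_lipschitzOnWith ht hK).trans_lt ENNReal.coe_lt_top

lemma lipa_congr_le {f g : X → ℝ} {x : X} (h : f =ᶠ[𝓝 x] g) : lipa f x ≤ lipa g x := by
  obtain ⟨r, hr, hrt⟩ := Metric.mem_nhds_iff.1 h
  refine le_iInf₂ fun s hs => ?_
  refine (lipa_le f x (lt_min hr hs)).trans (lipOn_le fun y hy z hz => ?_)
  have hy1 : f y = g y := hrt (ball_subset_ball (min_le_left _ _) hy)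
  have hz1 : f z = g z := hrt (ball_subset_ball (min_le_left _ _) hz)
  rw [hy1, hz1]
  exact lipOn_spec g (ball_subset_ball (min_le_right _ _) hy)
    (ball_subset_ball (min_le_right _ _) hz)

lemma lipa_congr {f g : X → ℝ} {x : X} (h : f =ᶠ[𝓝 x] g) : lipa f x = lipa g x :=
  le_antisymm (lipa_congr_le h) (lipa_congr_le h.symm)

lemma lipa_const (c : ℝ) (x : X) : lipa (fun _ : X => c) x = 0 := by
  refine le_antisymm ?_ bot_le
  refine (lipa_le _ x one_pos).trans (lipOn_le fun y _ z _ => ?_)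
  simp

lemma lipa_eq_zero {f : X → ℝ} {x : X} {c : ℝ} (h : f =ᶠ[𝓝 x] fun _ => c) : lipa f x = 0 := by
  rw [lipa_congr h, lipa_const]

lemma lipa_comp_le {f : X → ℝ} {φ : ℝ → ℝ} {L : ℝ≥0} (hφ : LipschitzWith L φ) (x : X) :
    lipa (fun y => φ (f y)) x ≤ L * lipa f x := by
  have h1 : Tendsto (fun r : ℝ => (L : ℝ≥0∞) * lipOn f (ball x r)) (𝓝[>] 0)
      (𝓝 (L * lipa f x)) := ENNReal.Tendsto.const_mul (tendsto_lipOn f x) (Or.inr ENNReal.coe_ne_top)
  refine ge_of_tendsto h1 ?_
  filter_upwards [self_mem_nhdsWithin] with r hr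
  refine (lipa_le _ x hr).trans (lipOn_le fun y hy z hz => ?_)
  calc edist (φ (f y)) (φ (f z)) ≤ L * edist (f y) (f z) := hφ _ _
    _ ≤ L * (lipOn f (ball x r) * edist y z) := by gcongr; exact lipOn_spec f hy hz
    _ = _ := by ring

lemma lipa_add_le (f g : X → ℝ) (x : X) :
    lipa (fun y => f y + g y) x ≤ lipa f x + lipa g x := by
  refine ge_of_tendsto ((tendsto_lipOn f x).add (tendsto_lipOn g x)) ?_
  filter_upwards [self_mem_nhdsWithin] with r hr
  refine (lipa_le _ x hr).trans (lipOn_le fun y hy z hz => ?_)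
  calc edist (f y + g y) (f z + g z) ≤ edist (f y) (f z) + edist (g y) (g z) :=
        edist_add_add_le _ _ _ _
    _ ≤ lipOn f (ball x r) * edist y z + lipOn g (ball x r) * edist y z :=
        add_le_add (lipOn_spec f hy hz) (lipOn_spec g hy hz)
    _ = _ := by ring

lemma lipa_neg (f : X → ℝ) (x : X) : lipa (fun y => - f y) x = lipa f x := by
  have h : LipschitzWith 1 (fun t : ℝ => -t) := LipschitzWith.id.neg
  refine le_antisymm ?_ ?_
  · simpa using lipa_comp_le (f := f) h x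
  · simpa using lipa_comp_le (f := fun y => - f y) h x

lemma edist_mul_le (a b c d : ℝ) :
    edist (a * b) (c * d) ≤ ‖a‖ₑ * edist b d + ‖d‖ₑ * edist a c := by
  have h : a * b - c * d = a * (b - d) + d * (a - c) := by ring
  rw [edist_eq_enorm_sub, h, edist_eq_enorm_sub, edist_eq_enorm_sub]
  calc ‖a * (b - d) + d * (a - c)‖ₑ ≤ ‖a * (b - d)‖ₑ + ‖d * (a - c)‖ₑ := enorm_add_le _ _
    _ = _ := by rw [enorm_mul, enorm_mul]

lemma enorm_le_of_ball (f : X → ℝ) {x y : X} {r : ℝ} (hy : y ∈ ball x r) :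
    ‖f y‖ₑ ≤ ‖f x‖ₑ + lipOn f (ball x r) * ENNReal.ofReal r := by
  have hr : 0 < r := pos_of_mem_ball hy
  have h1 : f y = f x + (f y - f x) := by ring
  calc ‖f y‖ₑ = ‖f x + (f y - f x)‖ₑ := by rw [← h1]
    _ ≤ ‖f x‖ₑ + ‖f y - f x‖ₑ := enorm_add_le _ _
    _ ≤ ‖f x‖ₑ + lipOn f (ball x r) * ENNReal.ofReal r := by
        gcongr
        rw [← edist_eq_enorm_sub]
        refine (lipOn_spec f hy (mem_ball_self hr)).trans ?_
        gcongr
        rw [edist_dist]
        exact ENNReal.ofReal_le_ofReal (mem_ball.1 hy).le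

lemma lipa_mul_le {f g : X → ℝ} {x : X} (hf : lipa f x < ∞) (hg : lipa g x < ∞) :
    lipa (fun y => f y * g y) x ≤ ‖f x‖ₑ * lipa g x + ‖g x‖ₑ * lipa f x := by
  have h0 : Tendsto (fun r : ℝ => ENNReal.ofReal r) (𝓝[>] 0) (𝓝 0) := by
    have : Tendsto (fun r : ℝ => ENNReal.ofReal r) (𝓝 0) (𝓝 (ENNReal.ofReal 0)) :=
      (ENNReal.continuous_ofReal.tendsto 0)
    rw [ENNReal.ofReal_zero] at this
    exact this.mono_left nhdsWithin_le_nhds
  have hf1 := tendsto_lipOn f x
  have hg1 := tendsto_lipOn g x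
  have hF : Tendsto (fun r : ℝ => ‖f x‖ₑ + lipOn f (ball x r) * ENNReal.ofReal r) (𝓝[>] 0)
      (𝓝 (‖f x‖ₑ)) := by
    have h := (ENNReal.Tendsto.mul hf1 (Or.inr ENNReal.zero_ne_top) h0 (Or.inr hf.ne)).const_add
      (‖f x‖ₑ)
    simpa using h
  have hG : Tendsto (fun r : ℝ => ‖g x‖ₑ + lipOn g (ball x r) * ENNReal.ofReal r) (𝓝[>] 0)
      (𝓝 (‖g x‖ₑ)) := by
    have h := (ENNReal.Tendsto.mul hg1 (Or.inr ENNReal.zero_ne_top) h0 (Or.inr hg.ne)).const_add
      (‖g x‖ₑ)
    simpa using h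
  have hT := (ENNReal.Tendsto.mul hF (Or.inr hg.ne) hg1 (Or.inr enorm_ne_top)).add
    (ENNReal.Tendsto.mul hG (Or.inr hf.ne) hf1 (Or.inr enorm_ne_top))
  refine ge_of_tendsto hT ?_
  filter_upwards [self_mem_nhdsWithin] with r hr
  refine (lipa_le _ x hr).trans (lipOn_le fun y hy z hz => ?_)
  calc edist (f y * g y) (f z * g z) ≤ ‖f y‖ₑ * edist (g y) (g z) + ‖g z‖ₑ * edist (f y) (f z) :=
        edist_mul_le _ _ _ _
    _ ≤ (‖f x‖ₑ + lipOn f (ball x r) * ENNReal.ofReal r) * (lipOn g (ball x r) * edist y z) +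
        (‖g x‖ₑ + lipOn g (ball x r) * ENNReal.ofReal r) * (lipOn f (ball x r) * edist y z) := by
        gcongr
        · exact enorm_le_of_ball f hy
        · exact lipOn_spec g hy hz
        · exact enorm_le_of_ball g hz
        · exact lipOn_spec f hy hz
    _ = _ := by ring

section meas

variable [MeasurableSpace X] [OpensMeasurableSpace X]

lemma measurable_lipa (f : X → ℝ) : Measurable (lipa f) := by
  refine measurable_of_Iio fun c => ?_
  refine IsOpen.measurableSet ?_
  rw [Metric.isOpen_iff]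
  intro x hx
  obtain ⟨r, hr, hrc⟩ := exists_of_lipa_lt (show lipa f x < c from hx)
  refine ⟨r / 2, half_pos hr, fun y hy => ?_⟩
  refine ((lipa_le f y (half_pos hr)).trans (lipOn_mono f ?_)).trans_lt hrc
  intro z hz
  rw [mem_ball] at *
  linarith [dist_triangle z y x]

lemma measurable_lipOn (f : X → ℝ) (r : ℝ) : Measurable fun x => lipOn f (ball x r) := by
  refine measurable_of_Ioi fun c => ?_
  refine IsOpen.measurableSet ?_
  rw [isOpen_iff_mem_nhds]
  intro x hx
  have hx : c < lipOn f (ball x r) := hx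
  obtain ⟨y, hy, z, hz, hyz⟩ : ∃ y ∈ ball x r, ∃ z ∈ ball x r,
      c * edist y z < edist (f y) (f z) := by
    by_contra hcon
    push Not at hcon
    exact absurd (lipOn_le hcon) (not_le.2 hx)
  have h1 : ∀ᶠ x' in 𝓝 x, y ∈ ball x' r := by
    have : ∀ᶠ x' in 𝓝 x, dist x' y < r := by
      have hc : Continuous fun x' : X => dist x' y := by fun_prop
      refine hc.continuousAt.eventually_lt continuousAt_const ?_
      rw [dist_comm]; exact hy
    filter_upwards [this] with x' hx'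
    rw [mem_ball, dist_comm]; exact hx'
  have h2 : ∀ᶠ x' in 𝓝 x, z ∈ ball x' r := by
    have : ∀ᶠ x' in 𝓝 x, dist x' z < r := by
      have hc : Continuous fun x' : X => dist x' z := by fun_prop
      refine hc.continuousAt.eventually_lt continuousAt_const ?_
      rw [dist_comm]; exact hz
    filter_upwards [this] with x' hx'
    rw [mem_ball, dist_comm]; exact hx'
  filter_upwards [h1, h2] with x' hy' hz'
  exact lt_of_mul_lt_mul_right' (hyz.trans_le (lipOn_spec f hy' hz'))

end meas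

/-- `lip_a f` is an upper gradient of a locally Lipschitz function. -/
theorem isUpperGradient_lipa [MeasurableSpace X] [BorelSpace X] [ProperSpace X]
    {f : X → ℝ} (hf : LocallyLipschitz f) : IsUpperGradient (lipa f) f := by
  intro L γ hL hγ
  have hγm : Measurable γ := hγ.continuous.measurable
  have claim : ∀ δ : ℝ, 0 < δ →
      ‖f (γ L) - f (γ 0)‖ₑ ≤ ∫⁻ s in Icc 0 L, lipOn f (ball (γ s) δ) := by
    intro δ hδ
    obtain ⟨N, hN⟩ : ∃ N : ℕ, L / (N + 1) < δ := by
      obtain ⟨N, hN⟩ := exists_nat_gt (L / δ)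
      refine ⟨N, ?_⟩
      rw [div_lt_iff₀ (by positivity)]
      rw [div_lt_iff₀ hδ] at hN
      nlinarith
    set h := L / (N + 1) with hh
    have hh0 : 0 ≤ h := by positivity
    have key : ∀ n : ℕ, ‖f (γ (n * h)) - f (γ 0)‖ₑ ≤
        ∫⁻ s in Ioc 0 (n * h), lipOn f (ball (γ s) δ) := by
      intro n
      induction n with
      | zero => simp
      | succ n ih =>
        have hd : Disjoint (Ioc 0 ((n : ℝ) * h)) (Ioc ((n : ℝ) * h) ((n + 1 : ℕ) * h)) := by
          rw [Set.disjoint_left]; intro t ht ht'; exact absurd ht.2 (not_le.2 ht'.1)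
        have hu : Ioc 0 ((n : ℝ) * h) ∪ Ioc ((n : ℝ) * h) ((n + 1 : ℕ) * h) =
            Ioc 0 ((n + 1 : ℕ) * h) := by
          rw [Ioc_union_Ioc_eq_Ioc (by positivity) (by push_cast; nlinarith)]
        rw [← hu, lintegral_union measurableSet_Ioc hd]
        have e : f (γ ((n + 1 : ℕ) * h)) - f (γ 0) =
            (f (γ (n * h)) - f (γ 0)) + (f (γ ((n + 1 : ℕ) * h)) - f (γ (n * h))) := by ring
        rw [e]
        refine (enorm_add_le _ _).trans (add_le_add ih ?_)
        rcases hh0.eq_or_lt with h00 | hpos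
        · simp [← h00]
        · have hc : ∀ s ∈ Ioc ((n : ℝ) * h) ((n + 1 : ℕ) * h),
              ‖f (γ ((n + 1 : ℕ) * h)) - f (γ (n * h))‖ₑ / ENNReal.ofReal h ≤
                lipOn f (ball (γ s) δ) := by
            intro s hs
            rw [ENNReal.div_le_iff (by simpa using hpos) ENNReal.ofReal_ne_top]
            rw [← edist_eq_enorm_sub]
            have hs1 := hs.1
            have hs2 := hs.2
            push_cast at hs2
            have m1 : γ ((n + 1 : ℕ) * h) ∈ ball (γ s) δ := by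
              rw [mem_ball]
              refine (hγ.dist_le_mul _ _).trans_lt ?_
              rw [Real.dist_eq, abs_of_nonneg (by push_cast; linarith)]
              push_cast
              linarith
            have m2 : γ (n * h) ∈ ball (γ s) δ := by
              rw [mem_ball]
              refine (hγ.dist_le_mul _ _).trans_lt ?_
              rw [Real.dist_eq, abs_of_nonpos (by linarith)]
              push_cast
              linarith
            refine (lipOn_spec f m1 m2).trans ?_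
            gcongr
            refine (hγ _ _).trans ?_
            rw [edist_dist, Real.dist_eq, ENNReal.coe_one, one_mul]
            refine ENNReal.ofReal_le_ofReal ?_
            rw [abs_of_nonneg (by push_cast; linarith)]
            push_cast
            linarith
          calc ‖f (γ ((n + 1 : ℕ) * h)) - f (γ (n * h))‖ₑ
              = (‖f (γ ((n + 1 : ℕ) * h)) - f (γ (n * h))‖ₑ / ENNReal.ofReal h) *
                volume (Ioc ((n : ℝ) * h) ((n + 1 : ℕ) * h)) := by
                rw [Real.volume_Ioc]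
                have : ((n + 1 : ℕ) : ℝ) * h - n * h = h := by push_cast; ring
                rw [this, ENNReal.div_mul_cancel (by simpa using hpos) ENNReal.ofReal_ne_top]
            _ ≤ ∫⁻ s in Ioc ((n : ℝ) * h) ((n + 1 : ℕ) * h), lipOn f (ball (γ s) δ) := by
                rw [← setLIntegral_const]
                exact setLIntegral_mono' measurableSet_Ioc hc
    have hfin := key (N + 1)
    have hL' : ((N + 1 : ℕ) : ℝ) * h = L := by
      rw [hh]; push_cast; field_simp
    rw [hL'] at hfin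
    exact hfin.trans (lintegral_mono_set Ioc_subset_Icc_self)
  -- pass to the limit
  have hmeas : ∀ n : ℕ, Measurable fun s : ℝ => lipOn f (ball (γ s) (1 / ((n : ℝ) + 1))) :=
    fun n => (measurable_lipOn f _).comp hγm
  have hanti : Antitone fun (n : ℕ) (s : ℝ) => lipOn f (ball (γ s) (1 / ((n : ℝ) + 1))) := by
    intro m n hmn s
    refine lipOn_mono f (ball_subset_ball ?_)
    exact one_div_le_one_div_of_le (by positivity) (by exact_mod_cast Nat.succ_le_succ hmn)
  have hfin : ∫⁻ s in Icc 0 L, lipOn f (ball (γ s) (1 / (((0 : ℕ) : ℝ) + 1))) ≠ ∞ := by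
    obtain ⟨K, hK⟩ : ∃ K, LipschitzOnWith K f (closedBall (γ 0) (L + 1)) :=
      hf.locallyLipschitzOn.exists_lipschitzOnWith_of_compact (isCompact_closedBall _ _)
    have hb : ∀ s ∈ Icc (0 : ℝ) L, lipOn f (ball (γ s) (1 / (((0 : ℕ) : ℝ) + 1))) ≤ K := by
      intro s hs
      refine (lipOn_mono f ?_).trans (lipOn_le_of_lipschitzOnWith hK)
      intro y hy
      rw [mem_ball] at hy
      rw [mem_closedBall]
      have h1 := hγ.dist_le_mul s 0
      rw [Real.dist_eq, sub_zero, abs_of_nonneg hs.1] at h1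
      have h2 := hs.2
      push_cast at h1 hy
      linarith [dist_triangle y (γ s) (γ 0)]
    refine ((setLIntegral_mono' measurableSet_Icc hb).trans_lt ?_).ne
    rw [setLIntegral_const, Real.volume_Icc]
    exact ENNReal.mul_lt_top ENNReal.coe_lt_top ENNReal.ofReal_lt_top
  have hlim := lintegral_iInf (μ := volume.restrict (Icc 0 L)) hmeas hanti hfin
  have hle : ∀ s : ℝ, (⨅ n : ℕ, lipOn f (ball (γ s) (1 / ((n : ℝ) + 1)))) ≤ lipa f (γ s) := by
    intro s
    refine le_iInf₂ fun r hr => ?_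
    obtain ⟨n, hn⟩ := exists_nat_one_div_lt hr
    exact (iInf_le _ n).trans (lipOn_mono f (ball_subset_ball hn.le))
  calc ‖f (γ L) - f (γ 0)‖ₑ
      ≤ ⨅ n : ℕ, ∫⁻ s in Icc 0 L, lipOn f (ball (γ s) (1 / ((n : ℝ) + 1))) :=
        le_iInf fun n => claim _ (by positivity)
    _ = ∫⁻ s in Icc 0 L, ⨅ n : ℕ, lipOn f (ball (γ s) (1 / ((n : ℝ) + 1))) := hlim.symm
    _ ≤ ∫⁻ s in Icc 0 L, lipa f (γ s) := lintegral_mono fun s => hle s

end Pool.Agent.J6H97.BVQ
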