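import Pool.Agent.J6H97.BVQ.Density

/-!
# The closure of a bounded open set with locally quasiminimal surface is a BV-extension set
-/

open MeasureTheory Filter Set Metric
open scoped ENNReal Topology NNReal

namespace Pool.Agent.J6H97.BVQ

variable {X : Type*} [MetricSpace X] [MeasurableSpace X] [BorelSpace X]

omit [BorelSpace X] in
lemma tvOpen_ball_lt_top {μ : Measure X} {Ω : Set X} (h : HasLocallyFinitePerimeter μ Ω) (x : X) :
    ∃ r > 0, tvOpen μ (chi Ω) (ball x r) < ∞ := by
  obtain ⟨V, hV, hxV, hfin⟩ := h x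
  obtain ⟨r, hr, hrV⟩ := Metric.isOpen_iff.1 hV x hxV
  refine ⟨r, hr, (tvOpen_mono hrV).trans_lt ?_⟩
  rwa [Per, tv_of_isOpen hV] at hfin

omit [BorelSpace X] in
/-- Good radii: small balls are contained in a set where `Ω` is quasiminimal and have finite
perimeter. -/
lemma exists_good_radius {μ : Measure X} {K : ℝ≥0} {Ω : Set X}
    (hK : IsLocallyQuasiminimal μ K Ω) (hper : HasLocallyFinitePerimeter μ Ω) (x : X) :
    ∃ r0 > 0, ∃ V : Set X, IsQuasiminimal μ K Ω V ∧ ∀ r ≤ r0,
      closedBall x r ⊆ V ∧ tvOpen μ (chi Ω) (ball x r) < ∞ := by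
  obtain ⟨r1, hr1, hfin⟩ := tvOpen_ball_lt_top hper x
  obtain ⟨V, hV, hxV, hKV⟩ := hK x
  obtain ⟨r2, hr2, hrV⟩ := Metric.isOpen_iff.1 hV x hxV
  refine ⟨min r1 (r2 / 2), lt_min hr1 (by linarith), V, hKV, fun r hr => ⟨?_, ?_⟩⟩
  · refine (closedBall_subset_ball ?_).trans hrV
    have := hr.trans (min_le_right _ _)
    linarith
  · exact (tvOpen_mono (ball_subset_ball (hr.trans (min_le_left _ _)))).trans_lt hfin

/-- The boundary of a set with locally quasiminimal surface is a null set. -/
theorem null_boundary [CompleteSpace X] {μ : Measure X} (hPI : IsPI μ) {K : ℝ≥0} {Ω : Set X}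
    (hΩ : IsOpen Ω) (hK : IsLocallyQuasiminimal μ K Ω) (hper : HasLocallyFinitePerimeter μ Ω) :
    μ (closure Ω \ Ω) = 0 := by
  obtain ⟨hpos, hfin, ⟨C0, hd0⟩, CP, l, hl, hP⟩ := hPI
  set C : ℝ≥0 := max C0 2 with hC
  have hd : ∀ (x : X) (r : ℝ), 0 < r → μ (ball x (2 * r)) ≤ C * μ (ball x r) := by
    intro x r hr
    refine (hd0 x r hr).trans ?_
    gcongr
    exact le_max_left _ _
  have : ProperSpace X := properSpace_of_doubling hpos hfin hd
  have : IsUnifLocDoublingMeasure μ := isUnifLocDoublingMeasure_of_doubling hd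
  have : IsFiniteMeasureOnCompacts μ := isFiniteMeasureOnCompacts_of_finite hfin
  obtain ⟨D, hD⟩ := density_lower hpos hfin hd (le_max_right _ _) hl hP K
  -- lower density bound
  have hlow : ∀ x ∈ closure Ω, ∃ r0 > 0, ∀ r, 0 < r → r ≤ r0 →
      μ (closedBall x r) ≤ C * D * μ (Ω ∩ closedBall x r) := by
    intro x hx
    obtain ⟨r0, hr0, V, hKV, hr⟩ := exists_good_radius hK hper x
    refine ⟨r0, hr0, fun r hr1 hr2 => ?_⟩
    obtain ⟨h1, h2⟩ := hr r hr2
    have h3 : μ (ball x r) ≤ D * μ (Ω ∩ closedBall x r) := by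
      by_contra hlt
      push Not at hlt
      have h4 := hD Ω V hΩ hKV x r hr1 h1 h2 hlt.le
      have h5 : (Ω ∩ ball x (r / 2)).Nonempty :=
        (mem_closure_iff.1 hx _ isOpen_ball (mem_ball_self (by linarith))).mono
          fun y hy => ⟨hy.2, hy.1⟩
      obtain ⟨y, hy⟩ := h5
      obtain ⟨ε, hε, hεs⟩ := Metric.isOpen_iff.1 (hΩ.inter isOpen_ball) y hy
      have h6 : μ (ball y ε) ≤ μ (Ω ∩ closedBall x (r / 2)) :=
        measure_mono (hεs.trans (inter_subset_inter_right _ ball_subset_closedBall))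
      rw [h4] at h6
      exact absurd (hpos y ε hε) (not_lt.2 h6)
    calc μ (closedBall x r) ≤ μ (ball x (2 * r)) :=
          measure_mono (closedBall_subset_ball (by linarith))
      _ ≤ C * μ (ball x r) := hd x r hr1
      _ ≤ C * (D * μ (Ω ∩ closedBall x r)) := by gcongr
      _ = _ := by ring
  -- Lebesgue density
  have hae := IsUnifLocDoublingMeasure.ae_tendsto_measure_inter_div μ Ωᶜ 1
  have hae2 : ∀ᵐ x ∂μ.restrict Ωᶜ, x ∉ closure Ω := by
    filter_upwards [hae] with x hx hxc
    obtain ⟨r0, hr0, hr⟩ := hlow x hxc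
    have hδ : Tendsto (fun n : ℕ => 1 / ((n : ℝ) + 1)) atTop (𝓝[>] 0) := by
      refine tendsto_nhdsWithin_iff.2 ⟨tendsto_one_div_add_atTop_nhds_zero_nat, ?_⟩
      exact Eventually.of_forall fun n => by
        show (0 : ℝ) < 1 / ((n : ℝ) + 1)
        positivity
    have hlim := hx (fun _ => x) (fun n : ℕ => 1 / ((n : ℝ) + 1)) hδ
      (Eventually.of_forall fun n => mem_closedBall_self (by positivity))
    have hCD0 : (C : ℝ≥0∞) * D ≠ ∞ := ENNReal.mul_ne_top ENNReal.coe_ne_top ENNReal.coe_ne_top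
    have hbd : ∀ᶠ n : ℕ in atTop, μ (Ωᶜ ∩ closedBall x (1 / ((n : ℝ) + 1))) /
        μ (closedBall x (1 / ((n : ℝ) + 1))) ≤ 1 - ((C : ℝ≥0∞) * D)⁻¹ := by
      have hev : ∀ᶠ n : ℕ in atTop, 1 / ((n : ℝ) + 1) ≤ r0 :=
        (tendsto_one_div_add_atTop_nhds_zero_nat (𝕜 := ℝ)).eventually_le_const hr0
      filter_upwards [hev] with n hn
      set δ : ℝ := 1 / ((n : ℝ) + 1) with hδd
      have hδ0 : 0 < δ := by positivity
      set b := μ (closedBall x δ) with hb
      have hb0 : b ≠ 0 :=
        ((hpos x δ hδ0).trans_le (measure_mono ball_subset_closedBall)).ne'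
      have hbt : b ≠ ∞ := (isCompact_closedBall x δ).measure_lt_top.ne
      have h1 : b ≤ C * D * μ (Ω ∩ closedBall x δ) := hr δ hδ0 hn
      have h2 : μ (Ω ∩ closedBall x δ) + μ (Ωᶜ ∩ closedBall x δ) = b := by
        rw [inter_comm, inter_comm Ωᶜ]
        exact measure_inter_add_sdiff (closedBall x δ) hΩ.measurableSet
      have h3 : (C * D : ℝ≥0∞)⁻¹ ≤ μ (Ω ∩ closedBall x δ) / b := by
        rw [ENNReal.le_div_iff_mul_le (Or.inl hb0) (Or.inl hbt), mul_comm, ← div_eq_mul_inv]
        refine ENNReal.div_le_of_le_mul ?_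
        rw [mul_comm]
        exact h1
      have h4 : μ (Ωᶜ ∩ closedBall x δ) / b + μ (Ω ∩ closedBall x δ) / b = 1 := by
        rw [← ENNReal.add_div, add_comm, h2, ENNReal.div_self hb0 hbt]
      refine ENNReal.le_sub_of_add_le_right ?_ ?_
      · exact ne_top_of_le_ne_top ENNReal.one_ne_top
          (h3.trans (le_add_self.trans h4.le))
      · exact (add_le_add le_rfl h3).trans h4.le
    have h5 := le_of_tendsto hlim hbd
    exact absurd h5 (not_le.2 (ENNReal.sub_lt_self ENNReal.one_ne_top one_ne_zero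
      (ENNReal.inv_ne_zero.2 hCD0)))
  rw [ae_iff] at hae2
  have h6 : {x | ¬ x ∉ closure Ω} = closure Ω := by ext x; simp
  rw [h6, Measure.restrict_apply isClosed_closure.measurableSet] at hae2
  rw [sdiff_eq]
  exact hae2

/-- Extension estimate for the product of a locally Lipschitz function with a Lipschitz cutoff
supported in a ball where `Ω` is quasiminimal (no sign condition). -/
theorem tv_ext_le_signed [ProperSpace X] {μ : Measure X} [IsFiniteMeasureOnCompacts μ] {K : ℝ≥0}
    {Ω V : Set X} (hΩ : MeasurableSet Ω) (hK : IsQuasiminimal μ K Ω V) {x0 : X} {r : ℝ}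
    (hV : closedBall x0 r ⊆ V) (hfin : tvOpen μ (chi Ω) (ball x0 r) < ∞) {g : X → ℝ}
    (hg : LocallyLipschitz g) (hg0 : ∀ x ∉ ball x0 r, g x = 0) :
    tvOpen μ (fun x => g x * chi Ω x) univ ≤ 2 * ((2 * K + 2) * ∫⁻ x in Ω, lipa g x ∂μ) := by
  have hmax : LipschitzWith 1 fun t : ℝ => max t 0 := LipschitzWith.id.max_const 0
  have key : ∀ {p : X → ℝ}, LocallyLipschitz p → (∀ x ∉ ball x0 r, p x = 0) →
      tvOpen μ (fun x => max (p x) 0 * chi Ω x) univ ≤ (2 * K + 2) * ∫⁻ x in Ω, lipa p x ∂μ := by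
    intro p hp hp0
    have hsupp : tsupport (fun x => max (p x) 0) ⊆ closedBall x0 r := by
      refine closure_minimal (fun x hx => ?_) isClosed_closedBall
      by_contra hlt
      refine hx ?_
      have := hp0 x fun h => hlt (ball_subset_closedBall h)
      simp [this]
    have h := tv_ext_le hΩ hK (hmax.locallyLipschitz.comp hp)
      ((isCompact_closedBall x0 r).of_isClosed_subset (isClosed_tsupport _) hsupp)
      (hsupp.trans hV) (fun x => le_max_right _ _)
      ((tvOpen_mono fun x hx => ?_).trans_lt hfin)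
    · refine h.trans ?_
      gcongr with x
      have := lipa_comp_le (f := p) hmax x
      rwa [ENNReal.coe_one, one_mul] at this
    · by_contra hlt
      have hx : 0 < max (p x) 0 := hx
      rw [hp0 x hlt] at hx
      simp at hx
  have h1 := key hg hg0
  have hgn : LocallyLipschitz fun x => - g x := LipschitzWith.id.neg.locallyLipschitz.comp hg
  have h2 := key hgn fun x hx => by rw [hg0 x hx, neg_zero]
  have e : (fun x => g x * chi Ω x) = fun x => max (g x) 0 * chi Ω x +
      -(max (- g x) 0 * chi Ω x) := by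
    funext x
    have : g x = max (g x) 0 - max (- g x) 0 := by
      rcases le_total (g x) 0 with h | h
      · rw [max_eq_right h, max_eq_left (by linarith)]; ring
      · rw [max_eq_left h, max_eq_right (by linarith)]; ring
    rw [← neg_mul, ← add_mul, ← sub_eq_add_neg, ← this]
  rw [e]
  have hm : AEMeasurable (fun x => max (g x) 0 * chi Ω x) (μ.restrict univ) :=
    ((hg.continuous.measurable.max measurable_const).mul
      (measurable_const.indicator hΩ)).aemeasurable
  refine (tvOpen_add_le isOpen_univ hm).trans ?_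
  calc tvOpen μ (fun x => max (g x) 0 * chi Ω x) univ +
        tvOpen μ (fun x => -(max (- g x) 0 * chi Ω x)) univ
      ≤ (2 * K + 2) * ∫⁻ x in Ω, lipa g x ∂μ + (2 * K + 2) * ∫⁻ x in Ω, lipa g x ∂μ := by
        refine add_le_add h1 (tvOpen_neg_le.trans (h2.trans ?_))
        simp_rw [lipa_neg]
        exact le_rfl
    _ = _ := (two_mul _).symm

/-- Gluing: there is a cutoff equal to one near finitely many points, with an extension
estimate. -/
theorem exists_glue [ProperSpace X] {μ : Measure X} [IsFiniteMeasureOnCompacts μ] {K : ℝ≥0}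
    {Ω : Set X} (hΩ : MeasurableSet Ω) (r : X → ℝ) (V : X → Set X) (s : Finset X)
    (hr : ∀ x ∈ s, 0 < r x) (hV : ∀ x ∈ s, closedBall x (r x) ⊆ V x)
    (hK : ∀ x ∈ s, IsQuasiminimal μ K Ω (V x))
    (hfin : ∀ x ∈ s, tvOpen μ (chi Ω) (ball x (r x)) < ∞) :
    ∃ (Φ : X → ℝ) (L C : ℝ≥0), (∀ x, lipa Φ x ≤ L) ∧ (∀ x, 0 ≤ Φ x ∧ Φ x ≤ 1) ∧
      (∀ x ∈ s, ∀ y ∈ closedBall x (r x / 2), Φ y = 1) ∧
      ∀ h : X → ℝ, LocallyLipschitz h → tvOpen μ (fun x => h x * Φ x * chi Ω x) univ ≤
        C * (∫⁻ x in Ω, lipa h x ∂μ + ∫⁻ x in Ω, ‖h x‖ₑ ∂μ) := by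
  classical
  induction s using Finset.induction_on with
  | empty =>
    refine ⟨fun _ => 0, 0, 0, fun x => by simp [lipa_const], fun x => by simp, by simp,
      fun h _ => ?_⟩
    simp [tvOpen_zero]
  | insert a s ha ih =>
    obtain ⟨Φ, L, C, hL, h01, h1, hC⟩ := ih (fun x hx => hr x (Finset.mem_insert_of_mem hx))
      (fun x hx => hV x (Finset.mem_insert_of_mem hx))
      (fun x hx => hK x (Finset.mem_insert_of_mem hx))
      (fun x hx => hfin x (Finset.mem_insert_of_mem hx))
    have haI : a ∈ insert a s := Finset.mem_insert_self a s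
    have hra : 0 < r a := hr a haI
    have has : r a / 2 < r a := by linarith
    set ψ : X → ℝ := fun x => ramp (r a / 2) (r a) (dist x a) with hψ
    set M : ℝ≥0 := Real.toNNReal (1 / (r a - r a / 2)) with hM
    have hψL : ∀ x, lipa ψ x ≤ M := by
      intro x
      have h2 : LipschitzWith (Real.toNNReal (1 / (r a - r a / 2)) * 1) ψ :=
        (ramp_lipschitz has).comp (LipschitzWith.dist_left a)
      rw [mul_one] at h2
      exact lipa_le_of_lipschitzOnWith univ_mem (h2.lipschitzOnWith)
    have hψ01 : ∀ x, 0 ≤ ψ x ∧ ψ x ≤ 1 := fun x => ⟨ramp_nonneg _ _ _, ramp_le_one _ _ _⟩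
    have hΦ' : ∀ x, lipa (fun y => 1 - Φ y) x ≤ L := by
      intro x
      have h2 : LipschitzWith 1 fun t : ℝ => 1 - t := by
        refine LipschitzWith.of_dist_le_mul fun x y => ?_
        rw [Real.dist_eq, Real.dist_eq]
        have : 1 - x - (1 - y) = -(x - y) := by ring
        rw [this, abs_neg, NNReal.coe_one, one_mul]
      have := lipa_comp_le (f := Φ) h2 x
      rw [ENNReal.coe_one, one_mul] at this
      exact this.trans (hL x)
    set θ : X → ℝ := fun x => ψ x * (1 - Φ x) with hθ
    have hθ01 : ∀ x, 0 ≤ θ x ∧ θ x ≤ 1 := by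
      intro x
      obtain ⟨a1, a2⟩ := hψ01 x
      obtain ⟨b1, b2⟩ := h01 x
      exact ⟨mul_nonneg a1 (by linarith), mul_le_one₀ a2 (by linarith) (by linarith)⟩
    have hen : ∀ t : ℝ, 0 ≤ t → t ≤ 1 → ‖t‖ₑ ≤ 1 := by
      intro t h0 h1
      rw [Real.enorm_eq_ofReal_abs, abs_of_nonneg h0]
      exact ENNReal.ofReal_le_one.2 h1
    have hθL : ∀ x, lipa θ x ≤ (L + M : ℝ≥0) := by
      intro x
      refine (lipa_mul_le ((hψL x).trans_lt ENNReal.coe_lt_top)
        ((hΦ' x).trans_lt ENNReal.coe_lt_top)).trans ?_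
      push_cast
      calc ‖ψ x‖ₑ * lipa (fun y => 1 - Φ y) x + ‖1 - Φ x‖ₑ * lipa ψ x
          ≤ 1 * L + 1 * M := by
            gcongr
            · exact hen _ (hψ01 x).1 (hψ01 x).2
            · exact hΦ' x
            · exact hen _ (by linarith [(h01 x).2]) (by linarith [(h01 x).1])
            · exact hψL x
        _ = _ := by rw [one_mul, one_mul]
    have hll : ∀ {p : X → ℝ}, (∀ x, lipa p x < ∞) → LocallyLipschitz p := fun {p} hp =>
      locallyLipschitzOn_univ.1 ((locallyLipschitzOn_iff isOpen_univ).2 fun x _ => hp x)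
    have hllf : ∀ {p : X → ℝ}, LocallyLipschitz p → ∀ x, lipa p x < ∞ := fun {p} hp x =>
      (locallyLipschitzOn_iff isOpen_univ).1 (locallyLipschitzOn_univ.2 hp) x (mem_univ x)
    refine ⟨fun x => Φ x + θ x, L + (L + M), C + 2 * ((2 * K + 2) * (1 + (L + M))), fun x => ?_,
      fun x => ?_, fun x hx y hy => ?_, fun h hh => ?_⟩
    · push_cast
      refine (lipa_add_le _ _ x).trans (add_le_add (hL x) ?_)
      have := hθL x
      push_cast at this
      exact this
    · obtain ⟨a1, a2⟩ := hψ01 x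
      obtain ⟨b1, b2⟩ := h01 x
      refine ⟨add_nonneg b1 (hθ01 x).1, ?_⟩
      have : Φ x + ψ x * (1 - Φ x) ≤ Φ x + 1 * (1 - Φ x) := by
        gcongr
      simp only [hθ]
      linarith
    · rcases Finset.mem_insert.1 hx with rfl | hxs
      · have : ψ y = 1 := ramp_eq_one has (mem_closedBall.1 hy)
        simp only [hθ, this]
        ring
      · have : Φ y = 1 := h1 x hxs y hy
        simp only [hθ, this]
        ring
    · have hcont : Continuous h := hh.continuous
      have hΦc : Continuous Φ :=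
        (hll fun x => (hL x).trans_lt ENNReal.coe_lt_top).continuous
      have hθc : LocallyLipschitz θ := hll fun x => (hθL x).trans_lt ENNReal.coe_lt_top
      have hhθ : ∀ x, lipa (fun y => h y * θ y) x ≤ lipa h x + (L + M) * ‖h x‖ₑ := by
        intro x
        refine (lipa_mul_le (hllf hh x) ((hθL x).trans_lt ENNReal.coe_lt_top)).trans ?_
        calc ‖h x‖ₑ * lipa θ x + ‖θ x‖ₑ * lipa h x
            ≤ ‖h x‖ₑ * (L + M : ℝ≥0) + 1 * lipa h x := by
              gcongr
              · exact hθL x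
              · exact hen _ (hθ01 x).1 (hθ01 x).2
          _ = _ := by push_cast; ring
      have hhθl : LocallyLipschitz fun y => h y * θ y := by
        refine hll fun x => (hhθ x).trans_lt ?_
        refine ENNReal.add_lt_top.2 ⟨hllf hh x, ENNReal.mul_lt_top ?_ enorm_lt_top⟩
        exact ENNReal.add_lt_top.2 ⟨ENNReal.coe_lt_top, ENNReal.coe_lt_top⟩
      have hsg := tv_ext_le_signed hΩ (hK a haI) (hV a haI) (hfin a haI) hhθl (fun x hx => by
        have : ψ x = 0 := ramp_eq_zero has (by simpa using hx)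
        simp [hθ, this])
      have e : (fun x => h x * (Φ x + θ x) * chi Ω x) =
          fun x => h x * Φ x * chi Ω x + h x * θ x * chi Ω x := by
        funext x; ring
      rw [e]
      have hm : AEMeasurable (fun x => h x * Φ x * chi Ω x) (μ.restrict univ) :=
        (((hcont.mul hΦc).measurable).mul (measurable_const.indicator hΩ)).aemeasurable
      refine (tvOpen_add_le isOpen_univ hm).trans ?_
      set I := ∫⁻ x in Ω, lipa h x ∂μ with hI
      set J := ∫⁻ x in Ω, ‖h x‖ₑ ∂μ with hJ
      have hint : ∫⁻ x in Ω, lipa (fun y => h y * θ y) x ∂μ ≤ I + (L + M) * J := by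
        calc ∫⁻ x in Ω, lipa (fun y => h y * θ y) x ∂μ
            ≤ ∫⁻ x in Ω, (lipa h x + (L + M) * ‖h x‖ₑ) ∂μ := lintegral_mono hhθ
          _ = _ := by
              rw [lintegral_add_left (measurable_lipa h), lintegral_const_mul']
              exact (ENNReal.add_lt_top.2 ⟨ENNReal.coe_lt_top, ENNReal.coe_lt_top⟩).ne
      have hI1 : I ≤ I + J := le_self_add
      have hJ1 : J ≤ I + J := le_add_self
      calc tvOpen μ (fun x => h x * Φ x * chi Ω x) univ +
            tvOpen μ (fun x => h x * θ x * chi Ω x) univ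
          ≤ C * (I + J) + 2 * ((2 * K + 2) * (I + (L + M) * J)) := by
            refine add_le_add (hC h hh) (hsg.trans ?_)
            gcongr
        _ ≤ C * (I + J) + 2 * ((2 * K + 2) * ((I + J) + (L + M) * (I + J))) := by
            gcongr
        _ = _ := by push_cast; ring

omit [BorelSpace X] in
lemma exists_open_of_tv_lt {μ : Measure X} {f : X → ℝ} {E : Set X} {c : ℝ≥0∞}
    (h : tv μ f E < c) : ∃ A, IsOpen A ∧ E ⊆ A ∧ tvOpen μ f A < c := by
  simp only [tv, iInf_lt_iff] at h
  obtain ⟨A, hA, hEA, hlt⟩ := h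
  exact ⟨A, hA, hEA, hlt⟩

/-- The closure of a bounded open set with locally quasiminimal surface and locally finite
perimeter in a PI space is a BV-extension set. -/
theorem closure_extension [CompleteSpace X] {μ : Measure X} (hPI : IsPI μ) {K : ℝ≥0} {Ω : Set X}
    (hΩ : IsOpen Ω) (hb : Bornology.IsBounded Ω) (hK : IsLocallyQuasiminimal μ K Ω)
    (hper : HasLocallyFinitePerimeter μ Ω) : IsBVExtensionSet μ (closure Ω) := by
  have hnull := null_boundary hPI hΩ hK hper
  obtain ⟨hpos, hfin, ⟨C0, hd⟩, -⟩ := hPI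
  have : ProperSpace X := properSpace_of_doubling hpos hfin hd
  have : IsFiniteMeasureOnCompacts μ := isFiniteMeasureOnCompacts_of_finite hfin
  set E := closure Ω with hE
  have hEc : IsCompact E := Metric.isCompact_of_isClosed_isBounded isClosed_closure hb.closure
  have hEm : MeasurableSet E := isClosed_closure.measurableSet
  have hΩE : Ω ⊆ E := subset_closure
  choose r hr0 V hKV hrV using fun x => exists_good_radius hK hper x
  obtain ⟨s, -, hsE⟩ := hEc.elim_nhds_subcover (fun x => closedBall x (r x / 2))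
    fun x _ => closedBall_mem_nhds x (half_pos (hr0 x))
  obtain ⟨Φ, L, C, hL, -, hΦ1, hC⟩ := exists_glue (K := K) hΩ.measurableSet r V s (fun x _ => hr0 x)
    (fun x _ => (hrV x (r x) le_rfl).1) (fun x _ => hKV x) (fun x _ => (hrV x (r x) le_rfl).2)
  have hΦc : Continuous Φ := by
    have h1 : LocallyLipschitz Φ := locallyLipschitzOn_univ.1
      ((locallyLipschitzOn_iff isOpen_univ).2 fun x _ => (hL x).trans_lt ENNReal.coe_lt_top)
    exact h1.continuous
  have hΦE : ∀ x ∈ E, Φ x = 1 := by
    intro x hx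
    obtain ⟨y, hy, hxy⟩ := mem_iUnion₂.1 (hsE hx)
    exact hΦ1 y hy x hxy
  refine ⟨1 + C, fun f hf hft => ⟨Ω.indicator f, ?_, ?_, ?_⟩⟩
  · rw [integrable_indicator_iff hΩ.measurableSet]
    exact hf.mono_measure (Measure.restrict_mono hΩE le_rfl)
  · rw [EventuallyEq, ae_restrict_iff' hEm]
    have h1 : ∀ᵐ x ∂μ, x ∉ E \ Ω := measure_eq_zero_iff_ae_notMem.1 hnull
    filter_upwards [h1] with x hx hxE
    have : x ∈ Ω := by
      by_contra h
      exact hx ⟨hxE, h⟩
    rw [indicator_of_mem this]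
  · set J : ℝ≥0∞ := ∫⁻ x, ‖f x‖ₑ ∂(μ.restrict E) with hJ
    have hJfin : J < ∞ := hf.2
    have hJ1 : ∫⁻ x, ‖Ω.indicator f x‖ₑ ∂μ ≤ J := by
      have : ∀ x, ‖Ω.indicator f x‖ₑ = Ω.indicator (fun y => ‖f y‖ₑ) x := fun x => by
        rw [enorm_indicator_eq_indicator_enorm]
      simp_rw [this]
      rw [lintegral_indicator hΩ.measurableSet]
      exact lintegral_mono_set hΩE
    rw [tv_of_isOpen isOpen_univ]
    -- the total variation estimate
    have hmain : ∀ c, tv (μ.restrict E) f E < c → ∀ ε : ℝ≥0∞, 0 < ε →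
        tvOpen μ (Ω.indicator f) univ ≤ C * (c + (ε + J)) := by
      intro c hc ε hε
      rcases E.eq_empty_or_nonempty with hem | hne
      · have : Ω = ∅ := subset_empty_iff.1 (hem ▸ hΩE)
        have h0 : Ω.indicator f = fun _ => 0 := by rw [this]; simp
        rw [h0, tvOpen_zero]
        exact bot_le
      obtain ⟨A, hA, hEA, hlt⟩ := exists_open_of_tv_lt hc
      obtain ⟨g, hg, hgc, hgl⟩ := exists_seq hlt
      obtain ⟨δ, hδ, hδA⟩ := hEc.exists_cthickening_subset_open hA hEA
      have hδ2 : δ / 2 < δ := by linarith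
      set ζ : X → ℝ := fun x => ramp (δ / 2) δ (infDist x E) with hζ
      have hζL : LipschitzWith (Real.toNNReal (1 / (δ - δ / 2)) * 1) ζ :=
        (ramp_lipschitz hδ2).comp (lipschitz_infDist_pt E)
      have hζ1 : ∀ x ∈ E, ζ =ᶠ[𝓝 x] fun _ => 1 := by
        intro x hx
        have h0 : infDist x E < δ / 2 := by rw [infDist_zero_of_mem hx]; positivity
        filter_upwards [(continuous_infDist_pt E).continuousAt.eventually_lt_const h0] with y hy
        exact ramp_eq_one hδ2 hy.le
      have hζ0 : ∀ x ∉ A, ζ =ᶠ[𝓝 x] fun _ => 0 := by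
        intro x hx
        have h0 : δ < infDist x E := by
          by_contra hle
          push Not at hle
          refine hx (hδA ?_)
          rw [mem_cthickening_iff]
          exact (ENNReal.le_ofReal_iff_toReal_le (infEDist_ne_top hne) hδ.le).2 hle
        filter_upwards [(continuous_infDist_pt E).continuousAt.eventually_const_lt h0] with y hy
        exact ramp_eq_zero hδ2 hy.le
      have hgA : ∀ n, ∀ x ∈ A, lipa (g n) x < ∞ := fun n => (locallyLipschitzOn_iff hA).1 (hg n)
      have hhl : ∀ n, LocallyLipschitz fun x => ζ x * g n x := by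
        intro n
        refine locallyLipschitzOn_univ.1 ((locallyLipschitzOn_iff isOpen_univ).2 fun x _ => ?_)
        by_cases hx : x ∈ A
        · have hζt : lipa ζ x < ∞ :=
            (lipa_le_of_lipschitzOnWith univ_mem hζL.lipschitzOnWith).trans_lt ENNReal.coe_lt_top
          refine (lipa_mul_le hζt (hgA n x hx)).trans_lt ?_
          exact ENNReal.add_lt_top.2 ⟨ENNReal.mul_lt_top enorm_lt_top (hgA n x hx),
            ENNReal.mul_lt_top enorm_lt_top hζt⟩
        · rw [lipa_eq_zero (c := 0)]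
          · exact ENNReal.zero_lt_top
          · filter_upwards [hζ0 x hx] with y hy
            rw [hy, zero_mul]
      set e : ℕ → ℝ≥0∞ := fun n => ∫⁻ x in E, ‖g n x - f x‖ₑ ∂μ with he
      have hetend : Tendsto e atTop (𝓝 0) := by
        have := hgc E hEA hEc
        rwa [Measure.restrict_restrict hEm, inter_self] at this
      have hbd : ∀ n, tvOpen μ (fun x => ζ x * g n x * Φ x * chi Ω x) univ ≤
          C * (c + (e n + J)) := by
        intro n
        refine (hC _ (hhl n)).trans ?_
        gcongr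
        · calc ∫⁻ x in Ω, lipa (fun x => ζ x * g n x) x ∂μ = ∫⁻ x in Ω, lipa (g n) x ∂μ := by
                refine setLIntegral_congr_fun hΩ.measurableSet fun x hx => ?_
                refine lipa_congr ?_
                filter_upwards [hζ1 x (hΩE hx)] with y hy
                rw [hy, one_mul]
            _ ≤ ∫⁻ x in A ∩ E, lipa (g n) x ∂μ := lintegral_mono_set fun x hx =>
                ⟨hEA (hΩE hx), hΩE hx⟩
            _ = ∫⁻ x in A, lipa (g n) x ∂(μ.restrict E) := by
                rw [Measure.restrict_restrict hA.measurableSet]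
            _ ≤ c := (hgl n).le
        · have hfm : AEMeasurable (fun x => ‖f x‖ₑ) (μ.restrict Ω) :=
            (hf.1.mono_measure (Measure.restrict_mono hΩE le_rfl)).enorm
          calc ∫⁻ x in Ω, ‖ζ x * g n x‖ₑ ∂μ ≤ ∫⁻ x in Ω, (‖g n x - f x‖ₑ + ‖f x‖ₑ) ∂μ := by
                refine setLIntegral_mono' hΩ.measurableSet fun x hx => ?_
                rw [(hζ1 x (hΩE hx)).eq_of_nhds, one_mul]
                have : g n x = (g n x - f x) + f x := by ring
                calc ‖g n x‖ₑ = ‖(g n x - f x) + f x‖ₑ := by rw [← this]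
                  _ ≤ _ := enorm_add_le _ _
            _ = ∫⁻ x in Ω, ‖g n x - f x‖ₑ ∂μ + ∫⁻ x in Ω, ‖f x‖ₑ ∂μ :=
                lintegral_add_right' _ hfm
            _ ≤ _ := add_le_add (lintegral_mono_set hΩE) (lintegral_mono_set hΩE)
      obtain ⟨n0, hn0⟩ := eventually_atTop.1 (hetend.eventually_lt_const hε)
      refine tvOpen_lsc_le isOpen_univ (fun n x => ζ x * g (n + n0) x * Φ x * chi Ω x)
        (fun n => ?_) (fun C' _ _ => ?_) fun n => (hbd (n + n0)).trans ?_
      · exact (((hhl (n + n0)).continuous.mul hΦc).measurable.mul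
          (measurable_const.indicator hΩ.measurableSet)).aemeasurable
      · have hle : ∀ n, ∫⁻ x in C', ‖ζ x * g (n + n0) x * Φ x * chi Ω x - Ω.indicator f x‖ₑ ∂μ ≤
            e (n + n0) := by
          intro n
          have h1 : ∀ x, ‖ζ x * g (n + n0) x * Φ x * chi Ω x - Ω.indicator f x‖ₑ ≤
              Ω.indicator (fun y => ‖g (n + n0) y - f y‖ₑ) x := by
            intro x
            by_cases hx : x ∈ Ω
            · simp only [chi, indicator_of_mem hx]
              rw [(hζ1 x (hΩE hx)).eq_of_nhds, hΦE x (hΩE hx), one_mul, mul_one, mul_one]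
            · simp [chi, indicator_of_notMem hx]
          calc _ ≤ ∫⁻ x in C', Ω.indicator (fun y => ‖g (n + n0) y - f y‖ₑ) x ∂μ :=
                lintegral_mono h1
            _ ≤ ∫⁻ x, Ω.indicator (fun y => ‖g (n + n0) y - f y‖ₑ) x ∂μ :=
                setLIntegral_le_lintegral _ _
            _ = ∫⁻ x in Ω, ‖g (n + n0) x - f x‖ₑ ∂μ := lintegral_indicator hΩ.measurableSet _
            _ ≤ e (n + n0) := lintegral_mono_set hΩE
        exact tendsto_of_tendsto_of_tendsto_of_le_of_le tendsto_const_nhds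
          (hetend.comp (tendsto_add_atTop_nat n0)) (fun _ => bot_le) hle
      · gcongr
        exact (hn0 (n + n0) (by omega)).le
    -- conclusion
    have hfinal : tvOpen μ (Ω.indicator f) univ ≤ C * (tv (μ.restrict E) f E + J) := by
      have h1 : Tendsto (fun n : ℕ => ENNReal.ofReal (1 / ((n : ℝ) + 1))) atTop (𝓝 0) := by
        have := ENNReal.tendsto_ofReal (tendsto_one_div_add_atTop_nhds_zero_nat (𝕜 := ℝ))
        simpa using this
      have hlim : Tendsto (fun n : ℕ => (C : ℝ≥0∞) * (tv (μ.restrict E) f E +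
          ENNReal.ofReal (1 / ((n : ℝ) + 1)) + (ENNReal.ofReal (1 / ((n : ℝ) + 1)) + J))) atTop
          (𝓝 (C * (tv (μ.restrict E) f E + 0 + (0 + J)))) :=
        ENNReal.Tendsto.const_mul ((h1.const_add _).add (h1.add_const _))
          (Or.inr ENNReal.coe_ne_top)
      rw [add_zero, zero_add] at hlim
      have hp : ∀ n : ℕ, 0 < ENNReal.ofReal (1 / ((n : ℝ) + 1)) := fun n =>
        ENNReal.ofReal_pos.2 (by positivity)
      exact ge_of_tendsto' hlim fun n => hmain _ (ENNReal.lt_add_right hft.ne (hp n).ne') _ (hp n)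
    calc ∫⁻ x, ‖Ω.indicator f x‖ₑ ∂μ + tvOpen μ (Ω.indicator f) univ
        ≤ J + C * (tv (μ.restrict E) f E + J) := add_le_add hJ1 hfinal
      _ ≤ (J + tv (μ.restrict E) f E) + C * (J + tv (μ.restrict E) f E) := by
          rw [add_comm (tv (μ.restrict E) f E) J]
          gcongr
          exact le_self_add
      _ = _ := by push_cast; ring

end Pool.Agent.J6H97.BVQ
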