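import Pool.Agent.J6H97.BVQ.Lip

/-!
# Total variation: basic properties
-/

open MeasureTheory Filter Set Metric
open scoped ENNReal Topology NNReal

namespace Pool.Agent.J6H97.BVQ

variable {X : Type*} [MetricSpace X] [MeasurableSpace X]

lemma tvOpen_le {μ : Measure X} {f : X → ℝ} {A : Set X} (g : ℕ → X → ℝ)
    (hg : ∀ n, LocallyLipschitzOn A (g n))
    (hconv : ∀ C ⊆ A, IsCompact C →
      Tendsto (fun n => ∫⁻ x in C, ‖g n x - f x‖ₑ ∂μ) atTop (𝓝 0)) :
    tvOpen μ f A ≤ liminf (fun n => ∫⁻ x in A, lipa (g n) x ∂μ) atTop :=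
  iInf_le_of_le g (iInf₂_le_of_le hg hconv le_rfl)

lemma exists_seq {μ : Measure X} {f : X → ℝ} {A : Set X} {c : ℝ≥0∞} (h : tvOpen μ f A < c) :
    ∃ g : ℕ → X → ℝ, (∀ n, LocallyLipschitzOn A (g n)) ∧
      (∀ C ⊆ A, IsCompact C → Tendsto (fun n => ∫⁻ x in C, ‖g n x - f x‖ₑ ∂μ) atTop (𝓝 0)) ∧
      ∀ n, ∫⁻ x in A, lipa (g n) x ∂μ < c := by
  simp only [tvOpen, iInf_lt_iff] at h
  obtain ⟨g, hg, hconv, hlt⟩ := h
  have hfr : ∃ᶠ n in atTop, ∫⁻ x in A, lipa (g n) x ∂μ < c :=
    frequently_lt_of_liminf_lt (by isBoundedDefault) hlt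
  obtain ⟨φ, hφ, hφ2⟩ := extraction_of_frequently_atTop hfr
  exact ⟨fun n => g (φ n), fun n => hg _,
    fun C hC hCc => (hconv C hC hCc).comp hφ.tendsto_atTop, hφ2⟩

lemma tvOpen_mono {μ : Measure X} {f : X → ℝ} {A B : Set X} (h : A ⊆ B) :
    tvOpen μ f A ≤ tvOpen μ f B := by
  refine le_iInf fun g => le_iInf₂ fun hg hconv => ?_
  refine (tvOpen_le g (fun n => (hg n).mono h) fun C hC hCc => hconv C (hC.trans h) hCc).trans ?_
  exact liminf_le_liminf (Eventually.of_forall fun n => lintegral_mono_set h)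

lemma tv_of_isOpen {μ : Measure X} {f : X → ℝ} {A : Set X} (hA : IsOpen A) :
    tv μ f A = tvOpen μ f A :=
  le_antisymm (iInf_le_of_le A (iInf₂_le_of_le hA le_rfl le_rfl))
    (le_iInf fun _ => le_iInf₂ fun _ hB => tvOpen_mono hB)

lemma tvOpen_congr {μ : Measure X} {f g : X → ℝ} {A : Set X} (h : f =ᵐ[μ.restrict A] g) :
    tvOpen μ f A = tvOpen μ g A := by
  have key : ∀ {f g : X → ℝ}, f =ᵐ[μ.restrict A] g → tvOpen μ f A ≤ tvOpen μ g A := by
    intro f g h
    refine le_iInf fun u => le_iInf₂ fun hu hconv => tvOpen_le u hu fun C hC hCc => ?_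
    refine (hconv C hC hCc).congr fun n => ?_
    have h1 : f =ᵐ[μ.restrict C] g := ae_restrict_of_ae_restrict_of_subset hC h
    refine lintegral_congr_ae ?_
    filter_upwards [h1] with x hx
    rw [hx]
  exact le_antisymm (key h) (key h.symm)

omit [MeasurableSpace X] in
lemma exists_exhaustion [ProperSpace X] {A : Set X} (hA : IsOpen A) :
    ∃ C : ℕ → Set X, (∀ n, IsCompact (C n)) ∧ (∀ n, C n ⊆ A) ∧
      ∀ K ⊆ A, IsCompact K → ∃ n0, ∀ n ≥ n0, K ⊆ C n := by
  rcases isEmpty_or_nonempty X with hX | ⟨⟨x0⟩⟩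
  · exact ⟨fun _ => ∅, fun _ => isCompact_empty, fun _ => empty_subset _, fun K _ _ =>
      ⟨0, fun n _ x _ => (hX.false x).elim⟩⟩
  refine ⟨fun n => closedBall x0 n ∩ {x | ENNReal.ofReal (1 / ((n : ℝ) + 1)) ≤ infEDist x Aᶜ},
    fun n => ?_, fun n x hx => ?_, fun K hK hKc => ?_⟩
  · exact (isCompact_closedBall x0 _).inter_right
      (isClosed_le continuous_const continuous_infEDist)
  · by_contra hxA
    have h1 : infEDist x Aᶜ = 0 := infEDist_zero_of_mem hxA
    have h2 := hx.2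
    simp only [mem_ofPred_eq, h1, nonpos_iff_eq_zero, ENNReal.ofReal_eq_zero] at h2
    have : (0 : ℝ) < 1 / ((n : ℝ) + 1) := by positivity
    linarith
  · obtain ⟨δ, hδ, hδA⟩ := hKc.exists_thickening_subset_open hA hK
    obtain ⟨R, hR⟩ := hKc.isBounded.subset_closedBall x0
    obtain ⟨n1, hn1⟩ := exists_nat_ge R
    obtain ⟨n2, hn2⟩ := exists_nat_one_div_lt hδ
    refine ⟨max n1 n2, fun n hn x hx => ⟨?_, ?_⟩⟩
    · refine closedBall_subset_closedBall ?_ (hR hx)
      exact hn1.trans (by exact_mod_cast (le_max_left _ _).trans hn)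
    · rw [mem_ofPred_eq, le_infEDist]
      intro y hy
      rw [edist_dist]
      refine ENNReal.ofReal_le_ofReal ?_
      by_contra hlt
      push Not at hlt
      refine hy (hδA ?_)
      rw [mem_thickening_iff]
      refine ⟨x, hx, ?_⟩
      rw [dist_comm]
      refine hlt.trans (lt_of_le_of_lt ?_ hn2)
      exact one_div_le_one_div_of_le (by positivity)
        (by exact_mod_cast Nat.succ_le_succ ((le_max_right _ _).trans hn))

lemma aemeasurable_of_locallyLipschitzOn [BorelSpace X] {μ : Measure X} {g : X → ℝ} {A : Set X}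
    (hA : IsOpen A) (hg : LocallyLipschitzOn A g) : AEMeasurable g (μ.restrict A) :=
  hg.continuousOn.aemeasurable hA.measurableSet

omit [MetricSpace X] in
lemma AEMeasurable.restrict_mono {μ : Measure X} {f : X → ℝ} {A C : Set X} (h : C ⊆ A)
    (hf : AEMeasurable f (μ.restrict A)) : AEMeasurable f (μ.restrict C) :=
  hf.mono_measure (Measure.restrict_mono h le_rfl)

/-- Lower semicontinuity of the total variation. -/
theorem tvOpen_lsc [BorelSpace X] [ProperSpace X] {μ : Measure X} {f : X → ℝ} {A : Set X}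
    (hA : IsOpen A) (u : ℕ → X → ℝ) (hu : ∀ n, AEMeasurable (u n) (μ.restrict A))
    (hconv : ∀ C ⊆ A, IsCompact C →
      Tendsto (fun n => ∫⁻ x in C, ‖u n x - f x‖ₑ ∂μ) atTop (𝓝 0))
    {c : ℝ≥0∞} (hc : ∀ n, tvOpen μ (u n) A < c) : tvOpen μ f A ≤ c := by
  obtain ⟨C, hCc, hCA, hCK⟩ := exists_exhaustion hA
  choose g hg hgc hgl using fun n => exists_seq (hc n)
  have hch : ∀ j : ℕ, ∃ n, ∫⁻ x in C j, ‖g j n x - u j x‖ₑ ∂μ ≤
      ENNReal.ofReal (1 / ((j : ℝ) + 1)) := by
    intro j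
    have h1 := hgc j (C j) (hCA j) (hCc j)
    have h2 : (0 : ℝ≥0∞) < ENNReal.ofReal (1 / ((j : ℝ) + 1)) := by
      rw [ENNReal.ofReal_pos]; positivity
    exact ((h1.eventually (ge_mem_nhds h2))).exists
  choose N hN using hch
  refine (tvOpen_le (fun j => g j (N j)) (fun j => hg j _) fun K hK hKc => ?_).trans ?_
  · obtain ⟨n0, hn0⟩ := hCK K hK hKc
    have hlim : Tendsto (fun j : ℕ => ENNReal.ofReal (1 / ((j : ℝ) + 1)) +
        ∫⁻ x in K, ‖u j x - f x‖ₑ ∂μ) atTop (𝓝 0) := by
      have h1 : Tendsto (fun j : ℕ => ENNReal.ofReal (1 / ((j : ℝ) + 1))) atTop (𝓝 0) := by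
        have := ENNReal.tendsto_ofReal tendsto_one_div_add_atTop_nhds_zero_nat
        simpa using this
      simpa using h1.add (hconv K hK hKc)
    refine tendsto_of_tendsto_of_tendsto_of_le_of_le' tendsto_const_nhds hlim
      (Eventually.of_forall fun _ => bot_le) ?_
    filter_upwards [eventually_ge_atTop n0] with j hj
    have hm1 : AEMeasurable (fun x => ‖g j (N j) x - u j x‖ₑ) (μ.restrict K) := by
      have h1 := AEMeasurable.restrict_mono hK (aemeasurable_of_locallyLipschitzOn (μ := μ) hA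
        (hg j (N j)))
      have h2 := AEMeasurable.restrict_mono hK (hu j)
      exact (h1.sub h2).enorm
    calc ∫⁻ x in K, ‖g j (N j) x - f x‖ₑ ∂μ
        ≤ ∫⁻ x in K, (‖g j (N j) x - u j x‖ₑ + ‖u j x - f x‖ₑ) ∂μ := by
          refine lintegral_mono fun x => ?_
          have : g j (N j) x - f x = (g j (N j) x - u j x) + (u j x - f x) := by ring
          rw [this]
          exact enorm_add_le _ _
      _ = ∫⁻ x in K, ‖g j (N j) x - u j x‖ₑ ∂μ + ∫⁻ x in K, ‖u j x - f x‖ₑ ∂μ :=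
          lintegral_add_left' hm1 _
      _ ≤ _ := by
          gcongr
          exact (lintegral_mono_set (hn0 j hj)).trans (hN j)
  · exact liminf_le_of_frequently_le' (Frequently.of_forall fun j => (hgl j (N j)).le)

/-- Subadditivity of the total variation. -/
theorem tvOpen_add_le [BorelSpace X] {μ : Measure X} {f g : X → ℝ} {A : Set X}
    (hA : IsOpen A) (hf : AEMeasurable f (μ.restrict A)) :
    tvOpen μ (fun x => f x + g x) A ≤ tvOpen μ f A + tvOpen μ g A := by
  refine ENNReal.le_of_forall_pos_le_add fun ε hε hfin => ?_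
  have hf1 : tvOpen μ f A < tvOpen μ f A + ε / 2 :=
    ENNReal.lt_add_right (ne_top_of_le_ne_top hfin.ne le_self_add) (by simpa using hε.ne')
  have hg1 : tvOpen μ g A < tvOpen μ g A + ε / 2 :=
    ENNReal.lt_add_right (ne_top_of_le_ne_top hfin.ne le_add_self) (by simpa using hε.ne')
  obtain ⟨u, hu, huc, hul⟩ := exists_seq hf1
  obtain ⟨v, hv, hvc, hvl⟩ := exists_seq hg1
  refine (tvOpen_le (fun n x => u n x + v n x) (fun n => (hu n).add (hv n))
    fun C hC hCc => ?_).trans ?_
  · have hlim := (huc C hC hCc).add (hvc C hC hCc)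
    rw [add_zero] at hlim
    refine tendsto_of_tendsto_of_tendsto_of_le_of_le tendsto_const_nhds hlim
      (fun _ => bot_le) fun n => ?_
    have hm1 : AEMeasurable (fun x => ‖u n x - f x‖ₑ) (μ.restrict C) := by
      have h1 := AEMeasurable.restrict_mono hC (aemeasurable_of_locallyLipschitzOn (μ := μ) hA
        (hu n))
      have h2 := AEMeasurable.restrict_mono hC hf
      exact (h1.sub h2).enorm
    calc ∫⁻ x in C, ‖u n x + v n x - (f x + g x)‖ₑ ∂μ
        ≤ ∫⁻ x in C, (‖u n x - f x‖ₑ + ‖v n x - g x‖ₑ) ∂μ := by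
          refine lintegral_mono fun x => ?_
          have : u n x + v n x - (f x + g x) = (u n x - f x) + (v n x - g x) := by ring
          rw [this]
          exact enorm_add_le _ _
      _ = _ := lintegral_add_left' hm1 _
  · refine liminf_le_of_frequently_le' (Frequently.of_forall fun n => ?_)
    calc ∫⁻ x in A, lipa (fun x => u n x + v n x) x ∂μ
        ≤ ∫⁻ x in A, (lipa (u n) x + lipa (v n) x) ∂μ :=
          lintegral_mono fun x => lipa_add_le _ _ x
      _ = ∫⁻ x in A, lipa (u n) x ∂μ + ∫⁻ x in A, lipa (v n) x ∂μ :=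
          lintegral_add_left (measurable_lipa _) _
      _ ≤ (tvOpen μ f A + ε / 2) + (tvOpen μ g A + ε / 2) := add_le_add (hul n).le (hvl n).le
      _ = tvOpen μ f A + tvOpen μ g A + ε := by
          rw [add_add_add_comm, ENNReal.add_halves]

lemma tvOpen_neg_le {μ : Measure X} {f : X → ℝ} {A : Set X} :
    tvOpen μ (fun x => - f x) A ≤ tvOpen μ f A := by
  refine le_iInf fun u => le_iInf₂ fun hu hconv => ?_
  refine (tvOpen_le (fun n x => - u n x) (fun n => ?_) fun C hC hCc => ?_).trans ?_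
  · intro x hx
    obtain ⟨K, t, ht, hK⟩ := hu n hx
    exact ⟨K, t, ht, hK.neg⟩
  · refine (hconv C hC hCc).congr fun n => ?_
    refine lintegral_congr fun x => ?_
    have : - u n x - - f x = -(u n x - f x) := by ring
    rw [this, enorm_neg]
  · simp_rw [lipa_neg]
    exact le_rfl

lemma ennreal_le_liminf_add (u v : ℕ → ℝ≥0∞) :
    liminf u atTop + liminf v atTop ≤ liminf (fun n => u n + v n) atTop := by
  rw [liminf_eq_iSup_iInf_of_nat, liminf_eq_iSup_iInf_of_nat, liminf_eq_iSup_iInf_of_nat,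
    ENNReal.iSup_add_iSup_of_monotone]
  · exact iSup_mono fun n => le_iInf₂ fun i hi => add_le_add (iInf₂_le i hi) (iInf₂_le i hi)
  · exact fun m n hmn => le_iInf₂ fun i hi => iInf₂_le i (hmn.trans hi)
  · exact fun m n hmn => le_iInf₂ fun i hi => iInf₂_le i (hmn.trans hi)

/-- Superadditivity of the total variation on disjoint open sets. -/
theorem tvOpen_superadd {μ : Measure X} {f : X → ℝ} {A B D : Set X} (hBm : MeasurableSet B)
    (hAD : A ⊆ D) (hBD : B ⊆ D) (hAB : Disjoint A B) :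
    tvOpen μ f A + tvOpen μ f B ≤ tvOpen μ f D := by
  refine le_iInf fun u => le_iInf₂ fun hu hconv => ?_
  have h1 := tvOpen_le (μ := μ) (f := f) u (fun n => (hu n).mono hAD)
    fun C hC hCc => hconv C (hC.trans hAD) hCc
  have h2 := tvOpen_le (μ := μ) (f := f) u (fun n => (hu n).mono hBD)
    fun C hC hCc => hconv C (hC.trans hBD) hCc
  refine (add_le_add h1 h2).trans ((ennreal_le_liminf_add _ _).trans ?_)
  refine liminf_le_liminf (Eventually.of_forall fun n => ?_)
  rw [← lintegral_union hBm hAB]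
  exact lintegral_mono_set (union_subset hAD hBD)

end Pool.Agent.J6H97.BVQ
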