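import Pool.Agent.J6H97.BVQ.TV

/-!
# Total variation of `h χ_Ω` for a Lipschitz weight `h`
-/

open MeasureTheory Filter Set Metric
open scoped ENNReal Topology NNReal

namespace Pool.Agent.J6H97.BVQ

variable {X : Type*} [MetricSpace X]

/-- The indicator function of a set. -/
noncomputable abbrev chi (E : Set X) : X → ℝ := E.indicator fun _ => (1 : ℝ)

lemma locallyLipschitzOn_iff {f : X → ℝ} {A : Set X} (hA : IsOpen A) :
    LocallyLipschitzOn A f ↔ ∀ x ∈ A, lipa f x < ∞ := by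
  refine ⟨fun h x hx => lipa_lt_top hA h hx, fun h x hx => ?_⟩
  obtain ⟨r, hr, hr2⟩ := exists_of_lipa_lt (h x hx)
  refine ⟨(lipOn f (ball x r)).toNNReal, ball x r, mem_nhdsWithin_of_mem_nhds (ball_mem_nhds x hr),
    fun y hy z hz => ?_⟩
  rw [ENNReal.coe_toNNReal hr2.ne]
  exact lipOn_spec f hy hz

lemma enorm_chi_le (E : Set X) (x : X) : ‖chi E x‖ₑ ≤ 1 := by
  by_cases h : x ∈ E <;> simp [chi, h]

variable [MeasurableSpace X] [BorelSpace X]

/-- Lower semicontinuity, non-strict form. -/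
theorem tvOpen_lsc_le [ProperSpace X] {μ : Measure X} {f : X → ℝ} {A : Set X}
    (hA : IsOpen A) (u : ℕ → X → ℝ) (hu : ∀ n, AEMeasurable (u n) (μ.restrict A))
    (hconv : ∀ C ⊆ A, IsCompact C →
      Tendsto (fun n => ∫⁻ x in C, ‖u n x - f x‖ₑ ∂μ) atTop (𝓝 0))
    {c : ℝ≥0∞} (hc : ∀ n, tvOpen μ (u n) A ≤ c) : tvOpen μ f A ≤ c := by
  refine ENNReal.le_of_forall_pos_le_add fun ε hε hfin => ?_
  refine tvOpen_lsc hA u hu hconv fun n => (hc n).trans_lt ?_
  exact ENNReal.lt_add_right hfin.ne (by simpa using hε.ne')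

/-- Weighted cut: the total variation of `h χ_Ω` in `A` is at most `sup |h|` times the perimeter
of `Ω` in `O` plus `∫_{Ω ∩ Z} lip_a h`, when `h` vanishes near the points of `A \ O` and `lip_a h`
vanishes on `O \ Z`, `Z ⊆ O` compact. -/
theorem tvOpen_mul_chi_le {μ : Measure X} {Ω : Set X} (hΩ : MeasurableSet Ω)
    {A O Z : Set X} (hA : IsOpen A) (hO : IsOpen O) (hOA : O ⊆ A) {h : X → ℝ}
    (hh : LocallyLipschitzOn A h) {H : ℝ≥0} (hH : ∀ x ∈ O, ‖h x‖ₑ ≤ H)
    (h0 : ∀ x ∈ A \ O, h =ᶠ[𝓝 x] fun _ => 0) (hZ : IsCompact Z) (hZO : Z ⊆ O)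
    (hlip0 : ∀ x ∈ O \ Z, lipa h x = 0) {M : ℝ≥0} (hM : ∀ x ∈ Z, lipa h x ≤ M)
    (hfin : tvOpen μ (chi Ω) O < ∞) :
    tvOpen μ (fun x => h x * chi Ω x) A ≤
      H * tvOpen μ (chi Ω) O + ∫⁻ x in Ω ∩ Z, lipa h x ∂μ := by
  have hZm : MeasurableSet Z := hZ.measurableSet
  have hhl : ∀ x ∈ A, lipa h x < ∞ := (locallyLipschitzOn_iff hA).1 hh
  refine ENNReal.le_of_forall_pos_le_add fun ε hε _ => ?_
  set δ : ℝ≥0 := ε / (H + 1) with hδ
  have hδ0 : 0 < δ := by positivity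
  have hlt : tvOpen μ (chi Ω) O < tvOpen μ (chi Ω) O + δ :=
    ENNReal.lt_add_right hfin.ne (by simpa using hδ0.ne')
  obtain ⟨v, hv, hvc, hvl⟩ := exists_seq hlt
  have hvl' : ∀ n, ∀ x ∈ O, lipa (v n) x < ∞ := fun n => (locallyLipschitzOn_iff hO).1 (hv n)
  have hz0 : ∀ n, ∀ x ∈ A \ O, lipa (fun y => h y * v n y) x = 0 := by
    intro n x hx
    refine lipa_eq_zero (c := 0) ?_
    filter_upwards [h0 x hx] with y hy
    rw [hy, zero_mul]
  have hpr : ∀ n, ∀ x ∈ O, lipa (fun y => h y * v n y) x ≤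
      ‖h x‖ₑ * lipa (v n) x + ‖v n x‖ₑ * lipa h x :=
    fun n x hx => lipa_mul_le (hhl x (hOA hx)) (hvl' n x hx)
  refine (tvOpen_le (fun n y => h y * v n y) (fun n => ?_) fun C hC hCc => ?_).trans ?_
  · rw [locallyLipschitzOn_iff hA]
    intro x hx
    by_cases hxO : x ∈ O
    · refine (hpr n x hxO).trans_lt ?_
      exact ENNReal.add_lt_top.2 ⟨ENNReal.mul_lt_top enorm_lt_top (hvl' n x hxO),
        ENNReal.mul_lt_top enorm_lt_top (hhl x hx)⟩
    · rw [hz0 n x ⟨hx, hxO⟩]; exact ENNReal.zero_lt_top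
  · -- convergence on compact sets
    set S : Set X := {x | h =ᶠ[𝓝 x] fun _ => 0} with hS
    have hSo : IsOpen S := isOpen_setOfPred_eventually_nhds
    have hC'c : IsCompact (C \ S) := hCc.diff hSo
    have hC'O : C \ S ⊆ O := by
      intro x hx
      by_contra hxO
      exact hx.2 (h0 x ⟨hC hx.1, hxO⟩)
    have hlim : Tendsto (fun n => (H : ℝ≥0∞) * ∫⁻ x in C \ S, ‖v n x - chi Ω x‖ₑ ∂μ) atTop
        (𝓝 0) := by
      have := ENNReal.Tendsto.const_mul (a := (H : ℝ≥0∞)) (hvc _ hC'O hC'c)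
        (Or.inr ENNReal.coe_ne_top)
      simpa using this
    refine tendsto_of_tendsto_of_tendsto_of_le_of_le tendsto_const_nhds hlim
      (fun _ => bot_le) fun n => ?_
    show ∫⁻ x in C, ‖h x * v n x - h x * chi Ω x‖ₑ ∂μ ≤ _
    rw [← lintegral_inter_add_sdiff _ C hSo.measurableSet]
    have h1 : ∫⁻ x in C ∩ S, ‖h x * v n x - h x * chi Ω x‖ₑ ∂μ = 0 := by
      rw [setLIntegral_congr_fun (g := fun _ => 0) (hCc.measurableSet.inter hSo.measurableSet)]
      · simp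
      · intro x hx
        have : h x = 0 := (show h =ᶠ[𝓝 x] fun _ => 0 from hx.2).eq_of_nhds
        simp [this]
    rw [h1, zero_add, ← lintegral_const_mul' _ _ ENNReal.coe_ne_top]
    refine setLIntegral_mono' (hC'c.measurableSet) fun x hx => ?_
    rw [← mul_sub, enorm_mul]
    gcongr
    exact hH x (hC'O hx)
  · -- the energy bound
    have hbd : ∀ n, ∫⁻ x in A, lipa (fun y => h y * v n y) x ∂μ ≤
        (H * (tvOpen μ (chi Ω) O + δ) + ∫⁻ x in Ω ∩ Z, lipa h x ∂μ) +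
          M * ∫⁻ x in Z, ‖v n x - chi Ω x‖ₑ ∂μ := by
      intro n
      rw [← lintegral_inter_add_sdiff _ A hO.measurableSet]
      have e1 : ∫⁻ x in A \ O, lipa (fun y => h y * v n y) x ∂μ = 0 := by
        rw [setLIntegral_congr_fun (g := fun _ => 0) (hA.measurableSet.diff hO.measurableSet)]
        · simp
        · exact fun x hx => hz0 n x hx
      have e2 : A ∩ O = O := inter_eq_right.2 hOA
      rw [e1, add_zero, e2]
      have e3 : ∫⁻ x in O, lipa (fun y => h y * v n y) x ∂μ ≤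
          ∫⁻ x in O, (H * lipa (v n) x + ‖v n x‖ₑ * lipa h x) ∂μ := by
        refine setLIntegral_mono' hO.measurableSet fun x hx => (hpr n x hx).trans ?_
        gcongr
        exact hH x hx
      refine e3.trans ?_
      rw [lintegral_add_left ((measurable_lipa _).const_mul _),
        lintegral_const_mul' _ _ ENNReal.coe_ne_top]
      have e4 : ∫⁻ x in O, ‖v n x‖ₑ * lipa h x ∂μ ≤
          ∫⁻ x in Ω ∩ Z, lipa h x ∂μ + M * ∫⁻ x in Z, ‖v n x - chi Ω x‖ₑ ∂μ := by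
        rw [← lintegral_inter_add_sdiff _ O hZm]
        have e5 : ∫⁻ x in O \ Z, ‖v n x‖ₑ * lipa h x ∂μ = 0 := by
          rw [setLIntegral_congr_fun (g := fun _ => 0) (hO.measurableSet.diff hZm)]
          · simp
          · intro x hx
            simp only
            rw [hlip0 x hx, mul_zero]
        have e6 : O ∩ Z = Z := inter_eq_right.2 hZO
        rw [e5, add_zero, e6]
        calc ∫⁻ x in Z, ‖v n x‖ₑ * lipa h x ∂μ
            ≤ ∫⁻ x in Z, (Ω.indicator (lipa h) x + M * ‖v n x - chi Ω x‖ₑ) ∂μ := by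
              refine setLIntegral_mono' hZm fun x hx => ?_
              have : v n x = chi Ω x + (v n x - chi Ω x) := by ring
              calc ‖v n x‖ₑ * lipa h x = ‖chi Ω x + (v n x - chi Ω x)‖ₑ * lipa h x := by
                    rw [← this]
                _ ≤ (‖chi Ω x‖ₑ + ‖v n x - chi Ω x‖ₑ) * lipa h x := by
                    gcongr; exact enorm_add_le _ _
                _ = ‖chi Ω x‖ₑ * lipa h x + lipa h x * ‖v n x - chi Ω x‖ₑ := by ring
                _ ≤ Ω.indicator (lipa h) x + M * ‖v n x - chi Ω x‖ₑ := by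
                    gcongr
                    · by_cases hxΩ : x ∈ Ω <;> simp [chi, hxΩ]
                    · exact hM x hx
          _ = ∫⁻ x in Z, Ω.indicator (lipa h) x ∂μ + M * ∫⁻ x in Z, ‖v n x - chi Ω x‖ₑ ∂μ := by
              rw [lintegral_add_left ((measurable_lipa h).indicator hΩ),
                lintegral_const_mul' _ _ ENNReal.coe_ne_top]
          _ = _ := by
              rw [lintegral_indicator hΩ, Measure.restrict_restrict hΩ]
      calc (H : ℝ≥0∞) * ∫⁻ x in O, lipa (v n) x ∂μ + ∫⁻ x in O, ‖v n x‖ₑ * lipa h x ∂μ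
          ≤ H * (tvOpen μ (chi Ω) O + δ) + (∫⁻ x in Ω ∩ Z, lipa h x ∂μ +
            M * ∫⁻ x in Z, ‖v n x - chi Ω x‖ₑ ∂μ) := by
            gcongr
            exact (hvl n).le
        _ = _ := by ring
    have hlim : Tendsto (fun n => (H * (tvOpen μ (chi Ω) O + δ) + ∫⁻ x in Ω ∩ Z, lipa h x ∂μ) +
          M * ∫⁻ x in Z, ‖v n x - chi Ω x‖ₑ ∂μ) atTop
        (𝓝 (H * (tvOpen μ (chi Ω) O + δ) + ∫⁻ x in Ω ∩ Z, lipa h x ∂μ)) := by
      have := (ENNReal.Tendsto.const_mul (a := (M : ℝ≥0∞)) (hvc _ hZO hZ)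
        (Or.inr ENNReal.coe_ne_top)).const_add
        (H * (tvOpen μ (chi Ω) O + δ) + ∫⁻ x in Ω ∩ Z, lipa h x ∂μ)
      simpa using this
    refine (liminf_le_liminf (Eventually.of_forall hbd)).trans ?_
    rw [hlim.liminf_eq]
    have hHδ : (H : ℝ≥0∞) * δ ≤ ε := by
      rw [← ENNReal.coe_mul, ENNReal.coe_le_coe, hδ, mul_div_assoc']
      rw [div_le_iff₀ (by positivity)]
      calc H * ε ≤ (H + 1) * ε := by gcongr; exact le_self_add
        _ = ε * (H + 1) := by ring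
    calc (H : ℝ≥0∞) * (tvOpen μ (chi Ω) O + δ) + ∫⁻ x in Ω ∩ Z, lipa h x ∂μ
        = H * tvOpen μ (chi Ω) O + ∫⁻ x in Ω ∩ Z, lipa h x ∂μ + H * δ := by ring
      _ ≤ _ := by gcongr

end Pool.Agent.J6H97.BVQ
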